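import Mathlib

/-!
# Zero entropy on sets which attract all orbits (helper132)

`EZ T Z` says that the topological entropy of `T` on the set `Z` is zero, in terms of finite covers. The main
lemma is `EZ.of_visits`: if every orbit in the compact set `Q` spends a bounded number of times outside every
neighbourhood of `Z`, then zero entropy on `Z` gives zero entropy on `Q`.
-/

set_option autoImplicit false

namespace Pool.Agent.Q132.CB

open Finset Filter Topology Dynamics Uniformity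
open scoped ENNReal

variable {X : Type*} [MetricSpace X]

/-- zero entropy on the set `Z` -/
def EZ (T : X → X) (Z : Set X) : Prop :=
  ∀ ε : ℝ, 0 < ε → ∀ δ : ℝ, 0 < δ → ∀ᶠ n : ℕ in atTop, ∃ S : Finset X, (∀ s ∈ S, s ∈ Z) ∧
    (S.card : ℝ) ≤ Real.exp (δ * n) ∧ ∀ z ∈ Z, ∃ s ∈ S, ∀ k < n, dist (T^[k] z) (T^[k] s) < ε

/-- points of the cover outside of `Z` are allowed -/
lemma EZ.of_outer {T : X → X} {Z : Set X}
    (h : ∀ ε : ℝ, 0 < ε → ∀ δ : ℝ, 0 < δ → ∀ᶠ n : ℕ in atTop, ∃ S : Finset X,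
      (S.card : ℝ) ≤ Real.exp (δ * n) ∧ ∀ z ∈ Z, ∃ s ∈ S, ∀ k < n, dist (T^[k] z) (T^[k] s) < ε) : EZ T Z := by
  classical
  intro ε hε δ hδ
  filter_upwards [h (ε / 2) (by positivity) δ hδ] with n hn
  obtain ⟨S, hS, hc⟩ := hn
  let P : X → Prop := fun s => ∃ z ∈ Z, ∀ k < n, dist (T^[k] z) (T^[k] s) < ε / 2
  let g : X → X := fun s => if hs : P s then hs.choose else s
  refine ⟨(S.filter P).image g, ?_, ?_, ?_⟩
  · intro s hs
    rw [mem_image] at hs
    obtain ⟨a, ha, rfl⟩ := hs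
    have hP : P a := (mem_filter.1 ha).2
    show (if hs : P a then hs.choose else a) ∈ Z
    rw [dif_pos hP]
    exact hP.choose_spec.1
  · refine le_trans ?_ hS
    have h1 : ((S.filter P).image g).card ≤ S.card := card_image_le.trans (card_filter_le _ _)
    exact_mod_cast h1
  · intro z hz
    obtain ⟨s, hs, hk⟩ := hc z hz
    have hP : P s := ⟨z, hz, hk⟩
    refine ⟨g s, mem_image_of_mem _ (mem_filter.2 ⟨hs, hP⟩), fun k hkn => ?_⟩
    have h1 : g s = hP.choose := dif_pos hP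
    have h2 := hP.choose_spec.2 k hkn
    rw [h1]
    have h3 := hk k hkn
    have h4 := dist_triangle_right (T^[k] z) (T^[k] hP.choose) (T^[k] s)
    linarith

lemma ev_exp {δ : ℝ} (hδ : 0 < δ) (B : ℝ) : ∀ᶠ n : ℕ in atTop, B ≤ Real.exp (δ * n) := by
  have : Tendsto (fun n : ℕ => Real.exp (δ * n)) atTop atTop := by
    apply Real.tendsto_exp_atTop.comp
    exact Tendsto.const_mul_atTop hδ tendsto_natCast_atTop_atTop
  exact this.eventually_ge_atTop B

lemma EZ.union {T : X → X} {Z W : Set X} (hZ : EZ T Z) (hW : EZ T W) : EZ T (Z ∪ W) := by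
  classical
  intro ε hε δ hδ
  filter_upwards [hZ ε hε (δ / 2) (by positivity), hW ε hε (δ / 2) (by positivity),
    ev_exp (show 0 < δ / 2 by positivity) 2] with n h1 h2 h3
  obtain ⟨S, a1, a2, a3⟩ := h1
  obtain ⟨R, b1, b2, b3⟩ := h2
  refine ⟨S ∪ R, ?_, ?_, ?_⟩
  · intro s hs
    rcases mem_union.1 hs with h | h
    · exact Or.inl (a1 s h)
    · exact Or.inr (b1 s h)
  · have h4 : ((S ∪ R).card : ℝ) ≤ S.card + R.card := by exact_mod_cast card_union_le _ _
    have h5 : Real.exp (δ * n) = Real.exp (δ / 2 * n) * Real.exp (δ / 2 * n) := by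
      rw [← Real.exp_add]; congr 1; ring
    rw [h5]
    nlinarith [Real.exp_pos (δ / 2 * n)]
  · rintro z (hz | hz)
    · obtain ⟨s, hs, h⟩ := a3 z hz
      exact ⟨s, mem_union_left _ hs, h⟩
    · obtain ⟨s, hs, h⟩ := b3 z hz
      exact ⟨s, mem_union_right _ hs, h⟩

/-- a compact set of fixed points -/
lemma EZ.of_fixed {T : X → X} {Z : Set X} (hZ : IsCompact Z) (h : ∀ z ∈ Z, T z = z) : EZ T Z := by
  classical
  intro ε hε δ hδ
  obtain ⟨t, ht, hc⟩ := hZ.elim_nhds_subcover (fun x => Metric.ball x ε) (fun x _ => Metric.ball_mem_nhds x hε)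
  filter_upwards [ev_exp hδ (t.card : ℝ)] with n hn
  refine ⟨t, ht, hn, fun z hz => ?_⟩
  obtain ⟨s, hs, hzs⟩ := Set.mem_iUnion₂.1 (hc hz)
  refine ⟨s, hs, fun k _ => ?_⟩
  rw [Function.iterate_fixed (h z hz), Function.iterate_fixed (h s (ht s hs))]
  exact hzs

lemma EZ.image {Y : Type*} [MetricSpace Y] {T : X → X} {T' : Y → Y} {Z : Set X} (hZ : EZ T Z)
    (hT : Set.MapsTo T Z Z) {e : X → Y} (he : UniformContinuousOn e Z) (hc : ∀ z ∈ Z, T' (e z) = e (T z)) :
    EZ T' (e '' Z) := by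
  classical
  intro ε hε δ hδ
  obtain ⟨r, hr, h1⟩ := Metric.uniformContinuousOn_iff.1 he ε hε
  have hit : ∀ k : ℕ, ∀ z ∈ Z, T^[k] z ∈ Z ∧ T'^[k] (e z) = e (T^[k] z) := by
    intro k
    induction k with
    | zero => intro z hz; exact ⟨hz, rfl⟩
    | succ k ih =>
      intro z hz
      rw [Function.iterate_succ_apply', Function.iterate_succ_apply', (ih z hz).2]
      exact ⟨hT (ih z hz).1, hc _ (ih z hz).1⟩
  filter_upwards [hZ r hr δ hδ] with n hn
  obtain ⟨S, a1, a2, a3⟩ := hn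
  refine ⟨S.image e, ?_, ?_, ?_⟩
  · intro s hs
    obtain ⟨a, ha, rfl⟩ := mem_image.1 hs
    exact ⟨a, a1 a ha, rfl⟩
  · refine le_trans ?_ a2
    exact_mod_cast card_image_le
  · rintro _ ⟨z, hz, rfl⟩
    obtain ⟨s, hs, h⟩ := a3 z hz
    refine ⟨e s, mem_image_of_mem _ hs, fun k hk => ?_⟩
    rw [(hit k z hz).2, (hit k s (a1 s hs)).2]
    exact h1 _ (hit k z hz).1 _ (hit k s (a1 s hs)).1 (h k hk)

lemma EZ.mono_set {T : X → X} {Z W : Set X} (hZ : EZ T Z) (h : W ⊆ Z) : EZ T W := by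
  apply EZ.of_outer
  intro ε hε δ hδ
  filter_upwards [hZ ε hε δ hδ] with n hn
  obtain ⟨S, _, a2, a3⟩ := hn
  exact ⟨S, a2, fun z hz => a3 z (h hz)⟩

/-- from `EZ` to the topological entropy of Mathlib -/
lemma EZ.entropy {T : X → X} {Z : Set X} (hZ : EZ T Z) : coverEntropy T Z ≤ 0 := by
  classical
  unfold coverEntropy
  apply iSup₂_le
  intro U hU
  obtain ⟨ε, hε, hk⟩ := Metric.mem_uniformity_dist.1 hU
  apply le_of_forall_gt_imp_ge_of_dense
  intro a ha
  obtain ⟨q, hq0, hqa⟩ := EReal.lt_iff_exists_real_btwn.1 ha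
  have hq : 0 < q := by exact_mod_cast hq0
  refine le_trans ?_ hqa.le
  apply Eventually.expGrowthSup_le
  filter_upwards [hZ ε hε q hq] with n hn
  obtain ⟨S, _, hS, hc⟩ := hn
  have hcov : IsDynCoverOf T Z U n S := by
    intro z hz
    obtain ⟨s, hs, h⟩ := hc z hz
    refine ⟨s, mem_coe.2 hs, ?_⟩
    apply mem_dynEntourage.2
    intro j hj
    exact hk (h j hj)
  have h3 := hcov.coverMincard_le_card
  have h4 : (q : EReal) * (n : EReal) = ((q * n : ℝ) : EReal) := by push_cast; rfl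
  rw [h4, EReal.exp_coe]
  calc ((coverMincard T Z U n : ℕ∞) : ℝ≥0∞)
      ≤ ((S.card : ℕ∞) : ℝ≥0∞) := ENat.toENNReal_mono h3
    _ = ENNReal.ofReal (S.card : ℝ) := by simp
    _ ≤ _ := ENNReal.ofReal_le_ofReal hS

/-- data which determine the orbit up to `ε` -/
lemma cover_of_data {D : Type*} [DecidableEq D] {T : X → X} {Q : Set X} {n : ℕ} {ε : ℝ} (data : X → D)
    (R : Finset D) (hR : ∀ m ∈ Q, data m ∈ R)
    (h : ∀ m ∈ Q, ∀ m' ∈ Q, data m = data m' → ∀ k < n, dist (T^[k] m) (T^[k] m') < ε) :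
    ∃ S : Finset X, (∀ s ∈ S, s ∈ Q) ∧ S.card ≤ R.card ∧ ∀ z ∈ Q, ∃ s ∈ S, ∀ k < n, dist (T^[k] z) (T^[k] s) < ε := by
  classical
  let P : D → Prop := fun d => ∃ m ∈ Q, data m = d
  by_cases hQ : Q.Nonempty
  · obtain ⟨x0, hx0⟩ := hQ
    let g : D → X := fun d => if hd : P d then hd.choose else x0
    refine ⟨(R.filter P).image g, ?_, ?_, ?_⟩
    · intro s hs
      obtain ⟨d, hd, rfl⟩ := mem_image.1 hs
      have hP : P d := (mem_filter.1 hd).2
      show (if hd : P d then hd.choose else x0) ∈ Q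
      rw [dif_pos hP]
      exact hP.choose_spec.1
    · exact card_image_le.trans (card_filter_le _ _)
    · intro z hz
      have hP : P (data z) := ⟨z, hz, rfl⟩
      refine ⟨g (data z), mem_image_of_mem _ (mem_filter.2 ⟨hR z hz, hP⟩), ?_⟩
      have h1 : g (data z) = hP.choose := dif_pos hP
      rw [h1]
      exact h z hz _ hP.choose_spec.1 hP.choose_spec.2.symm
  · refine ⟨∅, by simp, by simp, fun z hz => (hQ ⟨z, hz⟩).elim⟩

open scoped Classical in
/-- **Zero entropy near the attracting set.** -/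
theorem EZ.of_visits {T : X → X} (hT : Continuous T) {Q Z : Set X} (hQ : IsCompact Q) (hTQ : Set.MapsTo T Q Q)
    (hZ : EZ T Z)
    (hv : ∀ N : Set X, IsOpen N → Z ⊆ N → ∃ b : ℕ, ∀ m ∈ Q, ∀ n : ℕ,
      (((range n).filter (fun k => T^[k] m ∉ N)).card ≤ b)) : EZ T Q := by
  classical
  intro ε hε δ hδ
  -- the block length
  obtain ⟨l, hl1, SZ, hSZ, hcZ⟩ : ∃ l : ℕ, 1 ≤ l ∧ ∃ S : Finset X, ((S.card : ℝ) + 1 ≤ Real.exp (δ / 2 * l)) ∧
      ∀ z ∈ Z, ∃ s ∈ S, ∀ k < l, dist (T^[k] z) (T^[k] s) < ε / 4 := by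
    obtain ⟨l, hl⟩ := ((hZ (ε / 4) (by positivity) (δ / 4) (by positivity)).and
      ((ev_exp (show 0 < δ / 4 by positivity) 2).and (eventually_ge_atTop 1))).exists
    obtain ⟨⟨S, _, h2, h3⟩, h4, h5⟩ := hl
    refine ⟨l, h5, S, ?_, h3⟩
    have h6 : Real.exp (δ / 2 * l) = Real.exp (δ / 4 * l) * Real.exp (δ / 4 * l) := by
      rw [← Real.exp_add]; congr 1; ring
    rw [h6]
    nlinarith
  have hTk : ∀ k : ℕ, Continuous (T^[k]) := fun k => hT.iterate k
  -- the neighbourhood
  let N : Set X := ⋃ z ∈ Z, ⋂ k ∈ (Finset.range l), {m | dist (T^[k] m) (T^[k] z) < ε / 4}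
  have hNo : IsOpen N := by
    apply isOpen_biUnion
    intro z _
    apply isOpen_biInter_finset
    intro k _
    exact isOpen_lt ((hTk k).dist continuous_const) continuous_const
  have hZN : Z ⊆ N := by
    intro z hz
    refine Set.mem_iUnion₂.2 ⟨z, hz, ?_⟩
    refine Set.mem_iInter₂.2 (fun k _ => ?_)
    show dist (T^[k] z) (T^[k] z) < ε / 4
    rw [dist_self]; positivity
  have hN : ∀ m ∈ N, ∃ s ∈ SZ, ∀ k < l, dist (T^[k] m) (T^[k] s) < ε / 2 := by
    intro m hm
    obtain ⟨z, hz, h1⟩ := Set.mem_iUnion₂.1 hm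
    obtain ⟨s, hs, h2⟩ := hcZ z hz
    refine ⟨s, hs, fun k hk => ?_⟩
    have h3 : dist (T^[k] m) (T^[k] z) < ε / 4 := Set.mem_iInter₂.1 h1 k (mem_range.2 hk)
    have h4 := h2 k hk
    have h5 := dist_triangle (T^[k] m) (T^[k] z) (T^[k] s)
    linarith
  obtain ⟨b, hb⟩ := hv N hNo hZN
  -- the finite cover for the other blocks
  obtain ⟨t, ht⟩ : ∃ t : Finset X, ∀ m ∈ Q, ∃ s ∈ t, ∀ k < l, dist (T^[k] m) (T^[k] s) < ε / 2 := by
    obtain ⟨t, _, htc⟩ := hQ.elim_nhds_subcover
      (fun s => ⋂ k ∈ (Finset.range l), {m | dist (T^[k] m) (T^[k] s) < ε / 2}) (by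
        intro x _
        apply IsOpen.mem_nhds
        · apply isOpen_biInter_finset
          intro k _
          exact isOpen_lt ((hTk k).dist continuous_const) continuous_const
        · refine Set.mem_iInter₂.2 (fun k _ => ?_)
          show dist (T^[k] x) (T^[k] x) < ε / 2
          rw [dist_self]; positivity)
    refine ⟨t, fun m hm => ?_⟩
    obtain ⟨s, hs, h⟩ := Set.mem_iUnion₂.1 (htc hm)
    exact ⟨s, hs, fun k hk => Set.mem_iInter₂.1 h k (mem_range.2 hk)⟩
  let sZ : X → X := fun m => if h : m ∈ N then (hN m h).choose else m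
  have sZ1 : ∀ m ∈ N, sZ m ∈ SZ ∧ ∀ k < l, dist (T^[k] m) (T^[k] (sZ m)) < ε / 2 := by
    intro m hm
    have : sZ m = (hN m hm).choose := dif_pos hm
    rw [this]
    exact (hN m hm).choose_spec
  let sM : X → X := fun m => if h : m ∈ Q then (ht m h).choose else m
  have sM1 : ∀ m ∈ Q, sM m ∈ t ∧ ∀ k < l, dist (T^[k] m) (T^[k] (sM m)) < ε / 2 := by
    intro m hm
    have : sM m = (ht m hm).choose := dif_pos hm
    rw [this]
    exact (ht m hm).choose_spec
  have hQit : ∀ k : ℕ, ∀ m ∈ Q, T^[k] m ∈ Q := fun k m hm => (hTQ.iterate k) hm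
  -- the data
  let Bd : ℕ → X → Finset ℕ := fun q m => (range q).filter (fun k => T^[k * l] m ∉ N)
  have hBd : ∀ q, ∀ m ∈ Q, (Bd q m).card ≤ b := by
    intro q m hm
    refine le_trans ?_ (hb m hm (q * l))
    have : ((Bd q m).image (fun k => k * l)) ⊆ (range (q * l)).filter (fun k => T^[k] m ∉ N) := by
      intro i hi
      obtain ⟨k, hk, rfl⟩ := mem_image.1 hi
      obtain ⟨hk1, hk2⟩ := mem_filter.1 hk
      refine mem_filter.2 ⟨mem_range.2 ?_, hk2⟩
      exact Nat.mul_lt_mul_of_pos_right (mem_range.1 hk1) (by omega)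
    refine le_trans ?_ (card_le_card this)
    rw [card_image_of_injective]
    intro x y hxy
    exact Nat.eq_of_mul_eq_mul_right (by omega) hxy
  let g : (q : ℕ) → X → (Fin q → Option X) := fun q m k =>
    if T^[(k : ℕ) * l] m ∈ N then some (sZ (T^[(k : ℕ) * l] m)) else none
  let hh : (q : ℕ) → X → (Fin b → Option X) := fun q m i =>
    ((Bd q m).toList[(i : ℕ)]?).map (fun k => sM (T^[k * l] m))
  have hC : ∀ᶠ n : ℕ in atTop, Real.exp (δ / 2 * l) * ((t.card : ℝ) + 1) ^ b ≤ Real.exp (δ / 2 * n) :=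
    ev_exp (by positivity) _
  filter_upwards [hC] with n hn
  let q := n / l + 1
  let R : Finset ((Fin q → Option X) × (Fin b → Option X)) :=
    (Fintype.piFinset fun _ => insertNone SZ) ×ˢ (Fintype.piFinset fun _ => insertNone t)
  have hcardR : (R.card : ℝ) ≤ Real.exp (δ * n) := by
    have h1 : R.card = (SZ.card + 1) ^ q * (t.card + 1) ^ b := by
      simp only [R, card_product, Fintype.card_piFinset, card_insertNone, prod_const, card_univ, Fintype.card_fin]
    rw [h1]
    push_cast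
    have h2 : ((SZ.card : ℝ) + 1) ^ q ≤ Real.exp (δ / 2 * l) * Real.exp (δ / 2 * n) := by
      calc ((SZ.card : ℝ) + 1) ^ q ≤ (Real.exp (δ / 2 * l)) ^ q := pow_le_pow_left₀ (by positivity) hSZ _
        _ = Real.exp (δ / 2 * (l * q)) := by rw [← Real.exp_nat_mul]; congr 1; ring
        _ ≤ Real.exp (δ / 2 * (l + n)) := by
            apply Real.exp_le_exp.2
            have h3 : l * q ≤ l + n := by
              show l * (n / l + 1) ≤ l + n
              have := Nat.mul_div_le n l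
              rw [mul_add, mul_one]; omega
            have h4 : (l : ℝ) * q ≤ l + n := by exact_mod_cast h3
            nlinarith
        _ = _ := by rw [← Real.exp_add]; congr 1; ring
    calc ((SZ.card : ℝ) + 1) ^ q * ((t.card : ℝ) + 1) ^ b
        ≤ (Real.exp (δ / 2 * l) * Real.exp (δ / 2 * n)) * ((t.card : ℝ) + 1) ^ b :=
          mul_le_mul_of_nonneg_right h2 (by positivity)
      _ = (Real.exp (δ / 2 * l) * ((t.card : ℝ) + 1) ^ b) * Real.exp (δ / 2 * n) := by ring
      _ ≤ Real.exp (δ / 2 * n) * Real.exp (δ / 2 * n) := mul_le_mul_of_nonneg_right hn (Real.exp_pos _).le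
      _ = Real.exp (δ * n) := by rw [← Real.exp_add]; congr 1; ring
  have hRange : ∀ m ∈ Q, ((fun m => (g q m, hh q m)) m) ∈ R := by
    intro m hm
    refine mem_product.2 ⟨Fintype.mem_piFinset.2 (fun k => ?_), Fintype.mem_piFinset.2 (fun i => ?_)⟩
    · show (if T^[(k : ℕ) * l] m ∈ N then some (sZ (T^[(k : ℕ) * l] m)) else none) ∈ insertNone SZ
      split_ifs with hk
      · exact some_mem_insertNone.2 (sZ1 _ hk).1
      · exact none_mem_insertNone
    · show ((Bd q m).toList[(i : ℕ)]?).map (fun k => sM (T^[k * l] m)) ∈ insertNone t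
      rcases h0 : (Bd q m).toList[(i : ℕ)]? with _ | k
      · exact none_mem_insertNone
      · exact some_mem_insertNone.2 (sM1 _ (hQit _ m hm)).1
  have hClose : ∀ m ∈ Q, ∀ m' ∈ Q, (fun m => (g q m, hh q m)) m = (fun m => (g q m, hh q m)) m' →
      ∀ k < n, dist (T^[k] m) (T^[k] m') < ε := by
    intro m hm m' hm' hd i hi
    rw [Prod.mk.injEq] at hd
    obtain ⟨hd1, hd2⟩ := hd
    have hgood : ∀ k < q, T^[k * l] m ∈ N ↔ T^[k * l] m' ∈ N := by
      intro k hk
      have h1 := congrFun hd1 ⟨k, hk⟩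
      have h2 : (if T^[k * l] m ∈ N then some (sZ (T^[k * l] m)) else none) =
        (if T^[k * l] m' ∈ N then some (sZ (T^[k * l] m')) else none) := h1
      by_cases a1 : T^[k * l] m ∈ N <;> by_cases a2 : T^[k * l] m' ∈ N <;> simp [a1, a2] at h2 ⊢
    have hBeq : Bd q m = Bd q m' := by
      apply filter_congr
      intro k hk
      rw [hgood k (mem_range.1 hk)]
    -- the block of `i`
    have hkq : i / l < q := by
      show i / l < n / l + 1
      have := Nat.div_le_div_right (c := l) hi.le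
      omega
    have hir : i % l < l := Nat.mod_lt _ (by omega)
    have hi' : i = i % l + (i / l) * l := by
      have := Nat.div_add_mod i l
      rw [mul_comm] at this; omega
    have key : ∀ s : X, dist (T^[i % l] (T^[i / l * l] m)) (T^[i % l] s) < ε / 2 →
        dist (T^[i % l] (T^[i / l * l] m')) (T^[i % l] s) < ε / 2 → dist (T^[i] m) (T^[i] m') < ε := by
      intro s h1 h2
      rw [← Function.iterate_add_apply, ← hi'] at h1 h2
      have := dist_triangle_right (T^[i] m) (T^[i] m') (T^[i % l] s)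
      linarith
    by_cases hk : T^[i / l * l] m ∈ N
    · have hk' := (hgood _ hkq).1 hk
      have h1 := congrFun hd1 ⟨i / l, hkq⟩
      have h2 : (if T^[i / l * l] m ∈ N then some (sZ (T^[i / l * l] m)) else none) =
        (if T^[i / l * l] m' ∈ N then some (sZ (T^[i / l * l] m')) else none) := h1
      rw [if_pos hk, if_pos hk', Option.some.injEq] at h2
      refine key (sZ (T^[i / l * l] m)) ((sZ1 _ hk).2 _ hir) ?_
      rw [h2]
      exact (sZ1 _ hk').2 _ hir
    · have hk' : T^[i / l * l] m' ∉ N := fun h => hk ((hgood _ hkq).2 h)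
      have hmem : i / l ∈ (Bd q m).toList := mem_toList.2 (mem_filter.2 ⟨mem_range.2 hkq, hk⟩)
      obtain ⟨p, hp, hp2⟩ := List.getElem_of_mem hmem
      have hpb : p < b := by
        rw [length_toList] at hp
        exact hp.trans_le (hBd q m hm)
      have h1 := congrFun hd2 ⟨p, hpb⟩
      have h2 : ((Bd q m).toList[p]?).map (fun k => sM (T^[k * l] m)) =
        ((Bd q m').toList[p]?).map (fun k => sM (T^[k * l] m')) := h1
      rw [← hBeq, List.getElem?_eq_getElem hp, hp2, Option.map_some, Option.map_some, Option.some.injEq] at h2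
      refine key (sM (T^[i / l * l] m)) ((sM1 _ (hQit _ m hm)).2 _ hir) ?_
      rw [h2]
      exact (sM1 _ (hQit _ m' hm')).2 _ hir
  obtain ⟨S, hS1, hS2, hS3⟩ := cover_of_data (T := T) (Q := Q) (n := n) (ε := ε)
    (fun m => (g q m, hh q m)) R hRange hClose
  refine ⟨S, hS1, le_trans ?_ hcardR, hS3⟩
  exact_mod_cast hS2

end Pool.Agent.Q132.CB
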