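import Mathlib
import Pool.Agent.Q132.CB.A
import Pool.Agent.Q132.TS.D

/-!
# Two-sided sequences and their embedding into the line (helper132)
-/

set_option autoImplicit false

namespace Pool.Agent.Q132.CB

open Finset Filter Topology Dynamics Uniformity
open Pool.Agent.Q132.TS (ZE HasWords)

/-- the shift on two-sided sequences -/
def sg (y : ℤ → Bool) : ℤ → Bool := fun i => y (i + 1)

/-- the inverse of the shift -/
def sgi (y : ℤ → Bool) : ℤ → Bool := fun i => y (i - 1)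

lemma sg_sgi (y : ℤ → Bool) : sg (sgi y) = y := by
  funext i; simp [sg, sgi]

lemma sgi_sg (y : ℤ → Bool) : sgi (sg y) = y := by
  funext i; simp [sg, sgi]

lemma sg_cont : Continuous sg := continuous_pi (fun n => continuous_apply (n + 1))
lemma sgi_cont : Continuous sgi := continuous_pi (fun n => continuous_apply (n - 1))

lemma sg_iter (y : ℤ → Bool) (k : ℕ) (i : ℤ) : sg^[k] y i = y (i + k) := by
  induction k generalizing y with
  | zero => simp
  | succ k ih =>
    rw [Function.iterate_succ_apply, ih]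
    show y (i + k + 1) = _
    congr 1
    push_cast; ring

lemma cyl_memZ (U : SetRel (ℤ → Bool) (ℤ → Bool)) (hU : U ∈ 𝓤 (ℤ → Bool)) :
    ∃ r : ℕ, {p : (ℤ → Bool) × (ℤ → Bool) | ∀ i : ℤ, |i| ≤ r → p.1 i = p.2 i} ⊆ U := by
  classical
  rw [Pi.uniformity] at hU
  have h1 : ∀ i : ℤ, Filter.comap (fun a : (ℤ → Bool) × (ℤ → Bool) => (a.1 i, a.2 i)) (𝓤 Bool) =
      𝓟 {p : (ℤ → Bool) × (ℤ → Bool) | p.1 i = p.2 i} := by
    intro i
    rw [DiscreteUniformity.eq_principal_setRelId, Filter.comap_principal]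
    rfl
  simp only [h1] at hU
  obtain ⟨t, ht, hsub⟩ := (Filter.hasBasis_iInf_principal_finite _).mem_iff.1 hU
  obtain ⟨k, hk⟩ : ∃ k : ℕ, ∀ i ∈ t, |i| ≤ k := by
    obtain ⟨k, hk⟩ := (ht.image Int.natAbs).bddAbove
    refine ⟨k, fun i hi => ?_⟩
    have h2 : i.natAbs ≤ k := hk (Set.mem_image_of_mem Int.natAbs hi)
    rw [Int.abs_eq_natAbs]; exact_mod_cast h2
  refine ⟨k, fun p hp => hsub ?_⟩
  rw [Set.mem_iInter₂]
  intro i hi
  exact hp i (hk i hi)

/-- the extension of `b` by `false` -/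
def bt (b : ℕ → Bool) : ℤ → Bool := fun i => if 0 ≤ i then b i.toNat else false

/-- the closure of the full orbit -/
def Om (b : ℕ → Bool) : Set (ℤ → Bool) := closure (Set.range (fun m : ℤ => fun i => bt b (i + m)))

lemma bt_mem (b : ℕ → Bool) : bt b ∈ Om b := subset_closure ⟨0, by funext i; simp⟩

lemma Om_maps (b : ℕ → Bool) : Set.MapsTo sg (Om b) (Om b) := by
  apply Set.MapsTo.closure _ sg_cont
  rintro _ ⟨n, rfl⟩
  refine ⟨n + 1, ?_⟩
  funext i
  show bt b (i + (n + 1)) = bt b (i + 1 + n)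
  congr 1; ring

lemma Om_mapsi (b : ℕ → Bool) : Set.MapsTo sgi (Om b) (Om b) := by
  apply Set.MapsTo.closure _ sgi_cont
  rintro _ ⟨n, rfl⟩
  refine ⟨n - 1, ?_⟩
  funext i
  show bt b (i + (n - 1)) = bt b (i - 1 + n)
  congr 1; ring

lemma Om_win {b : ℕ → Bool} {w : ℤ → Bool} (hw : w ∈ Om b) (r : ℕ) :
    ∃ m : ℤ, ∀ i : ℤ, |i| ≤ r → w i = bt b (i + m) := by
  have hopen : {v : ℤ → Bool | ∀ i ∈ Finset.Icc (-(r : ℤ)) r, v i = w i} ∈ 𝓝 w := by
    have : {v : ℤ → Bool | ∀ i ∈ Finset.Icc (-(r : ℤ)) r, v i = w i} =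
        ⋂ i ∈ Finset.Icc (-(r : ℤ)) r, {v : ℤ → Bool | v i = w i} := by
      ext v; simp
    rw [this]
    apply (Filter.biInter_finset_mem _).2
    intro i _
    have h1 : {v : ℤ → Bool | v i = w i} = (fun v : ℤ → Bool => v i) ⁻¹' {w i} := rfl
    rw [h1]
    exact (continuous_apply i).continuousAt.preimage_mem_nhds (by simp)
  obtain ⟨_, h1, m, rfl⟩ := mem_closure_iff_nhds.1 hw _ hopen
  refine ⟨m, fun i hi => ?_⟩
  exact (h1 i (by rw [Finset.mem_Icc]; exact abs_le.1 hi)).symm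

lemma Om_words {b : ℕ → Bool} {n r K : ℕ} (hb : HasWords b (n + 2 * r) K) :
    ∃ S : Finset ℤ, S.card ≤ K + (n + 2 * r + 1) ∧ ∀ w ∈ Om b, ∃ m ∈ S, ∀ i : ℤ, -(r : ℤ) ≤ i → i < n + r →
      w i = bt b (i + m) := by
  classical
  obtain ⟨S0, h0, h1⟩ := hb
  refine ⟨S0.image (fun p : ℕ => (p : ℤ) + r) ∪ Finset.Icc (-((n + r : ℕ) : ℤ)) r, ?_, ?_⟩
  · refine (card_union_le _ _).trans ?_
    have h2 : (S0.image (fun p : ℕ => (p : ℤ) + r)).card ≤ K := card_image_le.trans h0
    have h3 : (Finset.Icc (-((n + r : ℕ) : ℤ)) r).card = n + 2 * r + 1 := by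
      rw [Int.card_Icc]; omega
    omega
  · intro w hw
    obtain ⟨m, hm⟩ := Om_win hw (n + r)
    by_cases c1 : 0 ≤ m - r
    · obtain ⟨p, hp, h2⟩ := h1 (m - r).toNat
      refine ⟨(p : ℤ) + r, mem_union_left _ (mem_image_of_mem _ hp), fun i hi1 hi2 => ?_⟩
      rw [hm i (abs_le.2 ⟨by push_cast; omega, by push_cast; omega⟩)]
      have h3 := h2 (i + r).toNat (by omega)
      unfold bt
      rw [if_pos (by omega), if_pos (by omega)]
      have e1 : (i + m).toNat = (m - r).toNat + (i + r).toNat := by omega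
      have e2 : (i + (p + r)).toNat = p + (i + r).toNat := by omega
      rw [e1, e2]; exact h3
    · by_cases c2 : -((n + r : ℕ) : ℤ) ≤ m
      · refine ⟨m, mem_union_right _ (Finset.mem_Icc.2 ⟨c2, by omega⟩), fun i hi1 hi2 => ?_⟩
        exact hm i (abs_le.2 ⟨by push_cast; omega, by push_cast; omega⟩)
      · refine ⟨-((n + r : ℕ) : ℤ), mem_union_right _ (Finset.mem_Icc.2 ⟨le_rfl, by push_cast; omega⟩),
          fun i hi1 hi2 => ?_⟩
        rw [hm i (abs_le.2 ⟨by push_cast; omega, by push_cast; omega⟩)]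
        unfold bt
        rw [if_neg (by push_cast at c2 ⊢; omega), if_neg (by push_cast; omega)]

lemma ev_lin {δ : ℝ} (hδ : 0 < δ) (r : ℕ) : ∀ᶠ n : ℕ in atTop,
    Real.exp (δ / 4 * ((n + 2 * r : ℕ) : ℝ)) + (n + 2 * r + 1) ≤ Real.exp (δ * n) := by
  filter_upwards [Pool.Agent.Q132.TS.ev_cube (show 0 < δ / 2 by positivity), eventually_ge_atTop (2 * r + 2)]
    with n h1 h2
  have h3 : ((2 * r + 2 : ℕ) : ℝ) ≤ n := by exact_mod_cast h2
  push_cast at h3 ⊢
  have hr : (0 : ℝ) ≤ r := Nat.cast_nonneg _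
  have h4 : Real.exp (δ / 4 * (n + 2 * r)) ≤ Real.exp (δ / 2 * n) := by
    apply Real.exp_le_exp.2
    nlinarith
  have h5 : (3 * (n : ℝ) + 1) ≤ Real.exp (δ / 2 * n) := by
    refine le_trans ?_ h1
    have : (2 : ℝ) ≤ n := by linarith
    nlinarith [mul_nonneg (by linarith : (0 : ℝ) ≤ n - 2) (by linarith : (0 : ℝ) ≤ n - 2), sq_nonneg ((n : ℝ) - 2)]
  have h6 : Real.exp (δ * n) = Real.exp (δ / 2 * n) * Real.exp (δ / 2 * n) := by
    rw [← Real.exp_add]; congr 1; ring
  rw [h6]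
  nlinarith [Real.exp_pos (δ / 2 * n)]

/-- zero entropy of the image of the orbit closure -/
theorem EZ_Om {X : Type*} [MetricSpace X] {T : X → X} {e : (ℤ → Bool) → X} (he : Continuous e)
    {b : ℕ → Bool} (hc : ∀ w ∈ Om b, T (e w) = e (sg w)) (hb : ZE b) : EZ T (e '' Om b) := by
  classical
  apply EZ.of_outer
  intro ε hε δ hδ
  have hu := CompactSpace.uniformContinuous_of_continuous he
  obtain ⟨r, hr⟩ := cyl_memZ _ (hu (Metric.dist_mem_uniformity hε))
  have hit : ∀ (k : ℕ), ∀ w ∈ Om b, T^[k] (e w) = e (sg^[k] w) := by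
    intro k
    induction k with
    | zero => intro w _; rfl
    | succ k ih =>
      intro w hw
      rw [Function.iterate_succ_apply, hc w hw, ih _ (Om_maps b hw), ← Function.iterate_succ_apply sg]
  have h1 := (tendsto_add_atTop_nat (2 * r)).eventually (hb (δ / 4) (by positivity))
  filter_upwards [h1, ev_lin hδ r] with n hn h2
  obtain ⟨K, hK, hw⟩ := hn
  obtain ⟨S, hS, hc2⟩ := Om_words hw
  refine ⟨S.image (fun m => e (fun i => bt b (i + m))), ?_, ?_⟩
  · refine le_trans ?_ h2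
    have h3 : ((S.image (fun m => e (fun i => bt b (i + m)))).card : ℝ) ≤ K + (n + 2 * r + 1) := by
      exact_mod_cast card_image_le.trans hS
    push_cast at h3 hK ⊢
    linarith
  · rintro _ ⟨w, hwm, rfl⟩
    obtain ⟨m, hm, h3⟩ := hc2 w hwm
    refine ⟨_, mem_image_of_mem _ hm, fun k hk => ?_⟩
    have hmem : (fun i => bt b (i + m)) ∈ Om b := subset_closure ⟨m, rfl⟩
    rw [hit k w hwm, hit k _ hmem]
    have h4 : (sg^[k] w, sg^[k] (fun i => bt b (i + m))) ∈
        {p : (ℤ → Bool) × (ℤ → Bool) | ∀ i : ℤ, |i| ≤ r → p.1 i = p.2 i} := by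
      intro i hi
      have := abs_le.1 hi
      show sg^[k] w i = sg^[k] (fun i => bt b (i + m)) i
      rw [sg_iter, sg_iter]
      exact h3 (i + k) (by omega) (by omega)
    exact hr h4

/-! ### the embedding -/

/-- an enumeration of the integers -/
def en (k : ℕ) : ℤ := if k % 2 = 0 then ((k / 2 : ℕ) : ℤ) else -((k / 2 : ℕ) : ℤ) - 1

lemma en_surj (i : ℤ) : ∃ k, en k = i ∧ ∀ k', en k' = i → k' = k := by
  by_cases h : 0 ≤ i
  · refine ⟨2 * i.toNat, ?_, ?_⟩
    · unfold en; rw [if_pos (by omega)]; omega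
    · intro k'; unfold en; split_ifs <;> omega
  · refine ⟨2 * (-i).toNat - 1, ?_, ?_⟩
    · unfold en; rw [if_neg (by omega)]; omega
    · intro k'; unfold en; split_ifs <;> omega

lemma en_succ (k : ℕ) : ∃ k' ≤ k + 2, en k' = en k + 1 := by
  by_cases h : k % 2 = 0
  · refine ⟨k + 2, le_rfl, ?_⟩
    unfold en; rw [if_pos h, if_pos (by omega)]; omega
  · by_cases h1 : k = 1
    · subst h1; exact ⟨0, by omega, by decide⟩
    · refine ⟨k - 2, by omega, ?_⟩
      unfold en; rw [if_neg h, if_neg (by omega)]; omega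

lemma en_pred (k : ℕ) : ∃ k' ≤ k + 2, en k' = en k - 1 := by
  by_cases h : k % 2 = 0
  · by_cases h0 : k = 0
    · subst h0; exact ⟨1, by omega, by decide⟩
    · refine ⟨k - 2, by omega, ?_⟩
      unfold en; rw [if_pos h, if_pos (by omega)]; omega
  · refine ⟨k + 2, le_rfl, ?_⟩
    unfold en; rw [if_neg h, if_neg (by omega)]; omega

lemma en_zero : en 0 = 0 := by decide

/-- the `k`-th term -/
noncomputable def tm (θ : ℝ) (w : ℤ → Bool) (k : ℕ) : ℝ := θ ^ k * (if w (en k) then 1 / 8 else 0)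

/-- the embedding -/
noncomputable def kap (θ : ℝ) (w : ℤ → Bool) : ℝ := ∑' k, tm θ w k

section kap

variable {θ : ℝ} (h0 : 0 < θ) (h1 : θ ≤ 1 / 3)
include h0 h1

lemma geo : Summable (fun k : ℕ => θ ^ k * (1 / 8)) :=
  (summable_geometric_of_lt_one h0.le (by linarith)).mul_right _

lemma tm_le (w : ℤ → Bool) (k : ℕ) : 0 ≤ tm θ w k ∧ tm θ w k ≤ θ ^ k * (1 / 8) := by
  unfold tm
  have := pow_pos h0 k
  constructor
  · split_ifs <;> positivity
  · split_ifs <;> nlinarith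

lemma tm_summable (w : ℤ → Bool) : Summable (tm θ w) :=
  Summable.of_nonneg_of_le (fun k => (tm_le h0 h1 w k).1) (fun k => (tm_le h0 h1 w k).2) (geo h0 h1)

lemma geo_tail (m : ℕ) : ∑' k : ℕ, θ ^ (k + m) * (1 / 8) ≤ 3 / 16 * θ ^ m := by
  have : (fun k : ℕ => θ ^ (k + m) * (1 / 8)) = fun k => θ ^ k * (θ ^ m * (1 / 8)) := by
    funext k; rw [pow_add]; ring
  rw [this, tsum_mul_right, tsum_geometric_of_lt_one h0.le (by linarith)]
  have h2 : (1 - θ)⁻¹ ≤ 3 / 2 := by
    rw [inv_le_comm₀ (by linarith) (by norm_num)]; norm_num; linarith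
  have := pow_pos h0 m
  nlinarith

lemma tail_le (w w' : ℤ → Bool) (m : ℕ) :
    |∑' k, tm θ w (k + m) - ∑' k, tm θ w' (k + m)| ≤ 3 / 16 * θ ^ m := by
  have s1 := (summable_nat_add_iff m).2 (tm_summable h0 h1 w)
  have s2 := (summable_nat_add_iff m).2 (tm_summable h0 h1 w')
  have s3 := (summable_nat_add_iff m).2 (geo h0 h1)
  have a1 : ∑' k, tm θ w (k + m) ≤ 3 / 16 * θ ^ m :=
    (s1.tsum_le_tsum (fun k => (tm_le h0 h1 w (k + m)).2) s3).trans (geo_tail h0 h1 m)
  have a2 : ∑' k, tm θ w' (k + m) ≤ 3 / 16 * θ ^ m :=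
    (s2.tsum_le_tsum (fun k => (tm_le h0 h1 w' (k + m)).2) s3).trans (geo_tail h0 h1 m)
  have a3 : 0 ≤ ∑' k, tm θ w (k + m) := tsum_nonneg (fun k => (tm_le h0 h1 w (k + m)).1)
  have a4 : 0 ≤ ∑' k, tm θ w' (k + m) := tsum_nonneg (fun k => (tm_le h0 h1 w' (k + m)).1)
  rw [abs_le]; constructor <;> linarith

lemma kap_split (w : ℤ → Bool) (m : ℕ) : kap θ w = ∑ k ∈ range m, tm θ w k + ∑' k, tm θ w (k + m) :=
  ((tm_summable h0 h1 w).sum_add_tsum_nat_add m).symm

lemma kap_close {w w' : ℤ → Bool} {m : ℕ} (h : ∀ k < m, w (en k) = w' (en k)) :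
    |kap θ w - kap θ w'| ≤ 3 / 16 * θ ^ m := by
  rw [kap_split h0 h1 w m, kap_split h0 h1 w' m]
  have : ∑ k ∈ range m, tm θ w k = ∑ k ∈ range m, tm θ w' k := by
    apply sum_congr rfl
    intro k hk
    unfold tm
    rw [h k (mem_range.1 hk)]
  rw [this, add_sub_add_left_eq_sub]
  exact tail_le h0 h1 w w' m

lemma kap_far {w w' : ℤ → Bool} {m : ℕ} (h : ∀ k < m, w (en k) = w' (en k)) (hm : w (en m) ≠ w' (en m)) :
    1 / 16 * θ ^ m ≤ |kap θ w - kap θ w'| := by
  have e1 := kap_split h0 h1 w (m + 1)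
  have e2 := kap_split h0 h1 w' (m + 1)
  rw [sum_range_succ] at e1 e2
  have e3 : ∑ k ∈ range m, tm θ w k = ∑ k ∈ range m, tm θ w' k := by
    apply sum_congr rfl
    intro k hk
    unfold tm
    rw [h k (mem_range.1 hk)]
  have e4 := tail_le h0 h1 w w' (m + 1)
  have e5 : |tm θ w m - tm θ w' m| = θ ^ m * (1 / 8) := by
    have hp := pow_pos h0 m
    unfold tm
    rcases hw : w (en m) with _ | _ <;> rcases hw' : w' (en m) with _ | _
    · exact absurd (hw.trans hw'.symm) hm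
    · simp only [Bool.false_eq_true, if_false, if_true, mul_zero, zero_sub, abs_neg]
      exact abs_of_pos (by positivity)
    · simp only [Bool.false_eq_true, if_false, if_true, mul_zero, sub_zero]
      exact abs_of_pos (by positivity)
    · exact absurd (hw.trans hw'.symm) hm
  have e6 : tm θ w m - tm θ w' m = (kap θ w - kap θ w') -
      (∑' k, tm θ w (k + (m + 1)) - ∑' k, tm θ w' (k + (m + 1))) := by
    rw [e1, e2, e3]; ring
  have e7 := abs_sub (kap θ w - kap θ w') (∑' k, tm θ w (k + (m + 1)) - ∑' k, tm θ w' (k + (m + 1)))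
  rw [← e6, e5] at e7
  have e8 : 3 / 16 * θ ^ (m + 1) ≤ 1 / 16 * θ ^ m := by
    rw [pow_succ]
    have := pow_pos h0 m
    nlinarith
  linarith

lemma kap_inj : Function.Injective (kap θ) := by
  intro w w' h
  by_contra hne
  have hex : ∃ m, w (en m) ≠ w' (en m) := by
    by_contra hall
    push Not at hall
    apply hne
    funext i
    obtain ⟨k, hk, _⟩ := en_surj i
    rw [← hk]; exact hall k
  classical
  have hm := Nat.find_spec hex
  have hlt : ∀ k < Nat.find hex, w (en k) = w' (en k) := fun k hk => by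
    have := Nat.find_min hex hk
    push Not at this; exact this
  have := kap_far h0 h1 hlt hm
  rw [h, sub_self, abs_zero] at this
  have := pow_pos h0 (Nat.find hex)
  linarith

lemma kap_range (w : ℤ → Bool) : 0 ≤ kap θ w ∧ kap θ w ≤ 3 / 16 := by
  constructor
  · exact tsum_nonneg (fun k => (tm_le h0 h1 w k).1)
  · have := geo_tail h0 h1 0
    have h2 := (tm_summable h0 h1 w).tsum_le_tsum (fun k => (tm_le h0 h1 w k).2) (geo h0 h1)
    simp only [Nat.add_zero, pow_zero, mul_one] at this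
    exact h2.trans this

lemma kap_first (w : ℤ → Bool) : |kap θ w - (if w 0 then 1 / 8 else 0)| ≤ 3 / 16 * θ := by
  have e1 := kap_split h0 h1 w 1
  rw [sum_range_one] at e1
  have e2 : tm θ w 0 = (if w 0 then 1 / 8 else 0) := by
    unfold tm; rw [pow_zero, one_mul, en_zero]
  rw [e1, e2, add_sub_cancel_left]
  have e3 := tail_le h0 h1 w (fun _ => false) 1
  have e4 : ∑' k, tm θ (fun _ => false) (k + 1) = 0 := by
    unfold tm; simp
  rw [e4, sub_zero, pow_one] at e3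
  exact e3

lemma kap_cont : Continuous (kap θ) := by
  apply continuous_tsum (u := fun k : ℕ => θ ^ k * (1 / 8))
  · intro k
    unfold tm
    apply continuous_const.mul
    have h2 : Continuous (fun t : Bool => (if t then 1 / 8 else 0 : ℝ)) := continuous_of_discreteTopology
    exact h2.comp (continuous_apply (en k))
  · exact geo h0 h1
  · intro k w
    rw [Real.norm_eq_abs, abs_of_nonneg (tm_le h0 h1 w k).1]
    exact (tm_le h0 h1 w k).2

/-- a map which moves every place by at most two in the enumeration is Lipschitz -/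
lemma kap_lip (g : (ℤ → Bool) → (ℤ → Bool))
    (hg : ∀ w w' : ℤ → Bool, ∀ m : ℕ, (∀ k < m, w (en k) = w' (en k)) → ∀ k, k + 2 < m → g w (en k) = g w' (en k))
    (w w' : ℤ → Bool) : |kap θ (g w) - kap θ (g w')| ≤ 3 / θ ^ 2 * |kap θ w - kap θ w'| := by
  by_cases hne : w = w'
  · rw [hne]; simp
  have hex : ∃ m, w (en m) ≠ w' (en m) := by
    by_contra hall
    push Not at hall
    apply hne
    funext i
    obtain ⟨k, hk, _⟩ := en_surj i
    rw [← hk]; exact hall k
  classical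
  have hm := Nat.find_spec hex
  have hlt : ∀ k < Nat.find hex, w (en k) = w' (en k) := fun k hk => by
    have := Nat.find_min hex hk
    push Not at this; exact this
  have a1 := kap_far h0 h1 hlt hm
  have a2 := kap_close h0 h1 (w := g w) (w' := g w') (m := Nat.find hex - 2)
    (fun k hk => hg w w' _ hlt k (by omega))
  have a3 : θ ^ (Nat.find hex - 2) * θ ^ 2 ≤ θ ^ Nat.find hex := by
    rw [← pow_add]
    exact pow_le_pow_of_le_one h0.le (by linarith) (by omega)
  have a4 : 3 / 16 * θ ^ (Nat.find hex - 2) ≤ 3 / θ ^ 2 * (1 / 16 * θ ^ Nat.find hex) := by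
    rw [div_mul_eq_mul_div, div_mul_eq_mul_div, div_le_div_iff₀ (by norm_num) (by positivity)]
    nlinarith
  refine a2.trans (a4.trans ?_)
  exact mul_le_mul_of_nonneg_left a1 (by positivity)

lemma kap_sg (w w' : ℤ → Bool) : |kap θ (sg w) - kap θ (sg w')| ≤ 3 / θ ^ 2 * |kap θ w - kap θ w'| := by
  apply kap_lip h0 h1
  intro w w' m h k hk
  obtain ⟨k', h2, h3⟩ := en_succ k
  show w (en k + 1) = w' (en k + 1)
  rw [← h3]
  exact h k' (by omega)

lemma kap_sgi (w w' : ℤ → Bool) : |kap θ (sgi w) - kap θ (sgi w')| ≤ 3 / θ ^ 2 * |kap θ w - kap θ w'| := by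
  apply kap_lip h0 h1
  intro w w' m h k hk
  obtain ⟨k', h2, h3⟩ := en_pred k
  show w (en k - 1) = w' (en k - 1)
  rw [← h3]
  exact h k' (by omega)

omit h0 h1 in
lemma clamp_le (x : ℝ) : |max (-(1 / 4)) (min (1 / 4) x)| ≤ 1 / 4 := by
  rw [abs_le]
  exact ⟨le_max_left _ _, max_le (by norm_num) (min_le_left _ _)⟩

omit h0 h1 in
lemma clamp_lip (x y : ℝ) :
    |max (-(1 / 4)) (min (1 / 4) x) - max (-(1 / 4)) (min (1 / 4) y)| ≤ |x - y| := by
  refine (abs_max_sub_max_le_max _ _ _ _).trans ?_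
  rw [sub_self, abs_zero]
  apply max_le (abs_nonneg _)
  refine (abs_min_sub_min_le_max _ _ _ _).trans ?_
  rw [sub_self, abs_zero]
  exact max_le (abs_nonneg _) le_rfl

omit h0 h1 in
lemma clamp_eq {x : ℝ} (hx : |x| ≤ 1 / 4) : max (-(1 / 4)) (min (1 / 4) x) = x := by
  obtain ⟨a, b⟩ := abs_le.1 hx
  rw [min_eq_right b, max_eq_right a]

lemma exists_ext (g : (ℤ → Bool) → (ℤ → Bool)) {L : ℝ} (hL : 0 ≤ L)
    (hg : ∀ w w', |kap θ (g w) - kap θ (g w')| ≤ L * |kap θ w - kap θ w'|) :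
    ∃ F : ℝ → ℝ, (∀ x y, |F x - F y| ≤ L * |x - y|) ∧ (∀ x, |F x| ≤ 1 / 4) ∧ ∀ w, F (kap θ w) = kap θ (g w) := by
  classical
  let f : ℝ → ℝ := fun r => if h : ∃ w, kap θ w = r then kap θ (g h.choose) else 0
  have hf : ∀ w, f (kap θ w) = kap θ (g w) := by
    intro w
    have h : ∃ w', kap θ w' = kap θ w := ⟨w, rfl⟩
    have h2 : f (kap θ w) = kap θ (g h.choose) := dif_pos h
    rw [h2, kap_inj h0 h1 h.choose_spec]
  have hlip : LipschitzOnWith ⟨L, hL⟩ f (Set.range (kap θ)) := by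
    apply LipschitzOnWith.of_dist_le_mul
    rintro _ ⟨w, rfl⟩ _ ⟨w', rfl⟩
    rw [hf, hf, Real.dist_eq, Real.dist_eq]
    exact hg w w'
  obtain ⟨F, hF1, hF2⟩ := hlip.extend_real
  refine ⟨fun x => max (-(1 / 4)) (min (1 / 4) (F x)), ?_, fun x => clamp_le _, ?_⟩
  · intro x y
    refine (clamp_lip _ _).trans ?_
    have := hF1.dist_le_mul x y
    rw [Real.dist_eq, Real.dist_eq] at this
    exact this
  · intro w
    show max (-(1 / 4)) (min (1 / 4) (F (kap θ w))) = _
    rw [← hF2 ⟨w, rfl⟩, hf]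
    apply clamp_eq
    have := kap_range h0 h1 (g w)
    rw [abs_le]; constructor <;> linarith

end kap

end Pool.Agent.Q132.CB
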