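import Mathlib

/-!
# Bi-Lipschitz homeomorphisms supported in the unit cube (helper132)
-/

set_option autoImplicit false

namespace Pool.Agent.Q132.CB

open Finset Filter Topology Function

variable {ι : Type*} [Fintype ι] [DecidableEq ι]

/-- a perturbation of the coordinate `i` -/
structure GoodP (i : ι) (ψ : (ι → ℝ) → ℝ) : Prop where
  lip : ∃ L : ℝ, 0 ≤ L ∧ ∀ v v', |ψ v - ψ v'| ≤ L * ‖v - v'‖
  half : ∀ v r r', |ψ (update v i r) - ψ (update v i r')| ≤ 1 / 2 * |r - r'|
  off : ∀ v, 1 ≤ ‖v‖ → ψ v = 0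

/-- the perturbed coordinate -/
def mv (i : ι) (ψ : (ι → ℝ) → ℝ) (v : ι → ℝ) : ι → ℝ := update v i (v i + ψ v)

/-- bi-Lipschitz bijections which are the identity outside the open unit cube -/
structure Hm (F : (ι → ℝ) → (ι → ℝ)) : Prop where
  surj : Function.Surjective F
  lip : ∃ L : ℝ, 0 ≤ L ∧ ∀ v v', ‖F v - F v'‖ ≤ L * ‖v - v'‖
  anti : ∃ L : ℝ, 0 ≤ L ∧ ∀ v v', ‖v - v'‖ ≤ L * ‖F v - F v'‖
  off : ∀ v, 1 ≤ ‖v‖ → F v = v

omit [DecidableEq ι] in
lemma Hm.inj {F : (ι → ℝ) → (ι → ℝ)} (h : Hm F) : Function.Injective F := by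
  intro v v' hv
  obtain ⟨L, _, h1⟩ := h.anti
  have := h1 v v'
  rw [hv, sub_self, norm_zero, mul_zero] at this
  exact sub_eq_zero.1 (norm_le_zero_iff.1 this)

omit [DecidableEq ι] in
lemma Hm.cont {F : (ι → ℝ) → (ι → ℝ)} (h : Hm F) : Continuous F := by
  obtain ⟨L, hL, h1⟩ := h.lip
  apply (LipschitzWith.of_dist_le_mul (K := ⟨L, hL⟩) (fun v v' => ?_)).continuous
  rw [dist_eq_norm, dist_eq_norm]
  exact h1 v v'

omit [DecidableEq ι] in
/-- the open cube is invariant -/
lemma Hm.ball {F : (ι → ℝ) → (ι → ℝ)} (h : Hm F) {v : ι → ℝ} (hv : ‖v‖ < 1) : ‖F v‖ < 1 := by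
  by_contra hcon
  rw [not_lt] at hcon
  have h1 := h.off _ hcon
  have h2 := h.inj h1
  rw [h2] at hcon
  linarith

omit [DecidableEq ι] in
lemma Hm.comp {F G : (ι → ℝ) → (ι → ℝ)} (hF : Hm F) (hG : Hm G) : Hm (F ∘ G) := by
  obtain ⟨L, hL, h1⟩ := hF.lip
  obtain ⟨L', hL', h1'⟩ := hG.lip
  obtain ⟨A, hA, h2⟩ := hF.anti
  obtain ⟨A', hA', h2'⟩ := hG.anti
  refine ⟨hF.surj.comp hG.surj, ⟨L * L', by positivity, fun v v' => ?_⟩, ⟨A' * A, by positivity, fun v v' => ?_⟩,
    fun v hv => ?_⟩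
  · calc ‖F (G v) - F (G v')‖ ≤ L * ‖G v - G v'‖ := h1 _ _
      _ ≤ L * (L' * ‖v - v'‖) := mul_le_mul_of_nonneg_left (h1' _ _) hL
      _ = _ := by ring
  · calc ‖v - v'‖ ≤ A' * ‖G v - G v'‖ := h2' _ _
      _ ≤ A' * (A * ‖F (G v) - F (G v')‖) := mul_le_mul_of_nonneg_left (h2 _ _) hA'
      _ = _ := by show _ = A' * A * ‖F (G v) - F (G v')‖; ring
  · show F (G v) = v
    rw [hG.off v hv, hF.off v hv]

lemma coord_le (v : ι → ℝ) (i : ι) : |v i| ≤ ‖v‖ := by
  rw [← Real.norm_eq_abs]; exact norm_le_pi_norm v i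

lemma Hm.mv {i : ι} {ψ : (ι → ℝ) → ℝ} (h : GoodP i ψ) : Hm (mv i ψ) := by
  obtain ⟨L, hL, h1⟩ := h.lip
  refine ⟨?_, ⟨1 + L, by positivity, fun v v' => ?_⟩, ⟨2 * (1 + L), by positivity, fun v v' => ?_⟩, fun v hv => ?_⟩
  · intro w
    let g : ℝ → ℝ := fun r => w i - ψ (update w i r)
    have hg : ContractingWith (1 / 2) g := by
      refine ⟨NNReal.coe_lt_coe.1 (by push_cast; norm_num), ?_⟩
      apply LipschitzWith.of_dist_le_mul
      intro r r'
      rw [Real.dist_eq, Real.dist_eq]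
      have h2 := h.half w r' r
      have h3 : g r - g r' = ψ (update w i r') - ψ (update w i r) := by simp only [g]; ring
      rw [h3, abs_sub_comm r r']
      refine h2.trans (le_of_eq ?_)
      simp
    obtain ⟨r, hr⟩ : ∃ r, g r = r := ⟨hg.fixedPoint g, hg.fixedPoint_isFixedPt⟩
    refine ⟨update w i r, ?_⟩
    unfold CB.mv
    rw [update_idem, update_self]
    have : r + ψ (update w i r) = w i := by simp only [g] at hr; linarith
    rw [this, update_eq_self]
  · rw [pi_norm_le_iff_of_nonneg (by positivity)]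
    intro j
    rw [Pi.sub_apply, Real.norm_eq_abs]
    unfold CB.mv
    have h2 := h1 v v'
    have h4 := norm_nonneg (v - v')
    by_cases hj : j = i
    · subst hj
      rw [update_self, update_self]
      have h3 : |v j - v' j| ≤ ‖v - v'‖ := coord_le (v - v') j
      calc |v j + ψ v - (v' j + ψ v')| = |(v j - v' j) + (ψ v - ψ v')| := by congr 1; ring
        _ ≤ |v j - v' j| + |ψ v - ψ v'| := abs_add_le _ _
        _ ≤ _ := by linarith
    · rw [update_of_ne hj, update_of_ne hj]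
      have h3 : |v j - v' j| ≤ ‖v - v'‖ := coord_le (v - v') j
      nlinarith
  · set D := ‖CB.mv i ψ v - CB.mv i ψ v'‖ with hD
    have hD0 : 0 ≤ D := norm_nonneg _
    have hne : ∀ j, j ≠ i → |v j - v' j| ≤ D := by
      intro j hj
      have := coord_le (CB.mv i ψ v - CB.mv i ψ v') j
      rw [Pi.sub_apply] at this
      unfold CB.mv at this
      rw [update_of_ne hj, update_of_ne hj] at this
      exact this
    have hi : |(v i + ψ v) - (v' i + ψ v')| ≤ D := by
      have := coord_le (CB.mv i ψ v - CB.mv i ψ v') i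
      rw [Pi.sub_apply] at this
      unfold CB.mv at this
      rw [update_self, update_self] at this
      exact this
    have h2 : ‖v - update v' i (v i)‖ ≤ D := by
      rw [pi_norm_le_iff_of_nonneg hD0]
      intro j
      rw [Pi.sub_apply, Real.norm_eq_abs]
      by_cases hj : j = i
      · subst hj; rw [update_self, sub_self, abs_zero]; exact hD0
      · rw [update_of_ne hj]; exact hne j hj
    have h3 := h1 v (update v' i (v i))
    have h4 := h.half v' (v i) (v' i)
    rw [update_eq_self] at h4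
    have h5 : |ψ v - ψ v'| ≤ L * D + 1 / 2 * |v i - v' i| := by
      calc |ψ v - ψ v'| ≤ |ψ v - ψ (update v' i (v i))| + |ψ (update v' i (v i)) - ψ v'| := abs_sub_le _ _ _
        _ ≤ L * D + 1 / 2 * |v i - v' i| := add_le_add (h3.trans (mul_le_mul_of_nonneg_left h2 hL)) h4
    have h6 : |v i - v' i| ≤ D + |ψ v - ψ v'| := by
      have e : v i - v' i = ((v i + ψ v) - (v' i + ψ v')) - (ψ v - ψ v') := by ring
      calc |v i - v' i| = |((v i + ψ v) - (v' i + ψ v')) - (ψ v - ψ v')| := by rw [← e]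
        _ ≤ |(v i + ψ v) - (v' i + ψ v')| + |ψ v - ψ v'| := abs_sub _ _
        _ ≤ _ := by linarith
    have h7 : |v i - v' i| ≤ 2 * (1 + L) * D := by nlinarith
    rw [pi_norm_le_iff_of_nonneg (by positivity)]
    intro j
    rw [Pi.sub_apply, Real.norm_eq_abs]
    by_cases hj : j = i
    · rw [hj]; exact h7
    · refine (hne j hj).trans ?_
      nlinarith
  · unfold CB.mv
    rw [h.off v hv, add_zero, update_eq_self]

/-! ### bounded Lipschitz functions -/

/-- bounded by `1` and Lipschitz -/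
def BL (ψ : (ι → ℝ) → ℝ) : Prop :=
  (∀ v, |ψ v| ≤ 1) ∧ ∃ L : ℝ, 0 ≤ L ∧ ∀ v v', |ψ v - ψ v'| ≤ L * ‖v - v'‖

omit [DecidableEq ι] in
lemma BL.mul {φ ψ : (ι → ℝ) → ℝ} (h : BL φ) (k : BL ψ) : BL (fun v => φ v * ψ v) := by
  obtain ⟨h1, L, hL, h2⟩ := h
  obtain ⟨k1, L', hL', k2⟩ := k
  refine ⟨fun v => ?_, L + L', by positivity, fun v v' => ?_⟩
  · rw [abs_mul]
    exact mul_le_one₀ (h1 v) (abs_nonneg _) (k1 v)
  · have e : φ v * ψ v - φ v' * ψ v' = φ v * (ψ v - ψ v') + (φ v - φ v') * ψ v' := by ring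
    calc |φ v * ψ v - φ v' * ψ v'| = |φ v * (ψ v - ψ v') + (φ v - φ v') * ψ v'| := by rw [e]
      _ ≤ |φ v * (ψ v - ψ v')| + |(φ v - φ v') * ψ v'| := abs_add_le _ _
      _ = |φ v| * |ψ v - ψ v'| + |φ v - φ v'| * |ψ v'| := by rw [abs_mul, abs_mul]
      _ ≤ 1 * (L' * ‖v - v'‖) + (L * ‖v - v'‖) * 1 := by
          apply add_le_add
          · exact mul_le_mul (h1 v) (k2 v v') (abs_nonneg _) zero_le_one
          · exact mul_le_mul (h2 v v') (k1 v') (abs_nonneg _) (by positivity)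
      _ = _ := by ring

/-- the cut-off function -/
noncomputable def qq (r : ℝ) : ℝ := max 0 (min 1 (2 * (1 - r)))

lemma qq_nonneg (r : ℝ) : 0 ≤ qq r := le_max_left _ _
lemma qq_le (r : ℝ) : qq r ≤ 1 := max_le zero_le_one (min_le_left _ _)
lemma qq_one {r : ℝ} (h : r ≤ 1 / 2) : qq r = 1 := by
  unfold qq; rw [min_eq_left (by linarith), max_eq_right zero_le_one]
lemma qq_zero {r : ℝ} (h : 1 ≤ r) : qq r = 0 := by
  unfold qq
  apply max_eq_left
  exact (min_le_right _ _).trans (by linarith)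

lemma max_lip (a b : ℝ) : |max 0 a - max 0 b| ≤ |a - b| := by
  refine (abs_max_sub_max_le_max _ _ _ _).trans ?_
  rw [sub_self, abs_zero]
  exact max_le (abs_nonneg _) le_rfl

lemma qq_lip (r s : ℝ) : |qq r - qq s| ≤ 2 * |r - s| := by
  unfold qq
  refine (max_lip _ _).trans ?_
  refine (abs_min_sub_min_le_max _ _ _ _).trans ?_
  rw [sub_self, abs_zero]
  apply max_le (by positivity)
  have : 2 * (1 - r) - 2 * (1 - s) = 2 * (s - r) := by ring
  rw [this, abs_mul, abs_of_pos (by norm_num : (0 : ℝ) < 2), abs_sub_comm]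

lemma update_norm_sub (v v' : ι → ℝ) (i : ι) (r : ℝ) : ‖update v i r - update v' i r‖ ≤ ‖v - v'‖ := by
  rw [pi_norm_le_iff_of_nonneg (norm_nonneg _)]
  intro j
  rw [Pi.sub_apply, Real.norm_eq_abs]
  by_cases hj : j = i
  · subst hj; rw [update_self, update_self, sub_self, abs_zero]; exact norm_nonneg _
  · rw [update_of_ne hj, update_of_ne hj]; exact coord_le (v - v') j

/-- the cut-off in the other coordinates -/
noncomputable def ww (i : ι) (v : ι → ℝ) : ℝ := qq ‖update v i 0‖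

lemma ww_BL (i : ι) : BL (ww i) := by
  refine ⟨fun v => ?_, 2, by norm_num, fun v v' => ?_⟩
  · unfold ww; rw [abs_of_nonneg (qq_nonneg _)]; exact qq_le _
  · unfold ww
    refine (qq_lip _ _).trans ?_
    have h1 := abs_norm_sub_norm_le (update v i 0) (update v' i 0)
    have h2 := update_norm_sub v v' i 0
    linarith

lemma ww_update (i : ι) (v : ι → ℝ) (r : ℝ) : ww i (update v i r) = ww i v := by
  unfold ww; rw [update_idem]

lemma ww_one {i : ι} {v : ι → ℝ} (h : ∀ j, |v j| ≤ 1 / 2) : ww i v = 1 := by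
  unfold ww
  apply qq_one
  rw [pi_norm_le_iff_of_nonneg (by norm_num)]
  intro j
  rw [Real.norm_eq_abs]
  by_cases hj : j = i
  · subst hj; rw [update_self, abs_zero]; norm_num
  · rw [update_of_ne hj]; exact h j

/-- outside the cube either the coordinate is large or the cut-off vanishes -/
lemma ww_off {i : ι} {v : ι → ℝ} (h : 1 ≤ ‖v‖) (hi : |v i| < 1) : ww i v = 0 := by
  unfold ww
  apply qq_zero
  by_contra hcon
  rw [not_le] at hcon
  have : ‖v‖ < 1 := by
    rw [pi_norm_lt_iff zero_lt_one]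
    intro j
    rw [Real.norm_eq_abs]
    by_cases hj : j = i
    · rw [hj]; exact hi
    · have := coord_le (update v i 0) j
      rw [update_of_ne hj] at this
      linarith
  linarith

section moves

variable {f : ℝ → ℝ} {Lf : ℝ} (hLf : 0 ≤ Lf) (hf1 : ∀ x y, |f x - f y| ≤ Lf * |x - y|) (hf2 : ∀ x, |f x| ≤ 1 / 4)
include hLf hf1 hf2

lemma f_BL (k : ι) : BL (fun v : ι → ℝ => f (v k)) := by
  refine ⟨fun v => (hf2 _).trans (by norm_num), Lf, hLf, fun v v' => ?_⟩
  exact (hf1 _ _).trans (mul_le_mul_of_nonneg_left (coord_le (v - v') k) hLf)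

/-- push up -/
noncomputable def upp (f : ℝ → ℝ) (i k : ι) (v : ι → ℝ) : ℝ := f (v k) * ww i v * max 0 (1 - |v i|)

/-- push down -/
noncomputable def dnn (f : ℝ → ℝ) (i k : ι) (v : ι → ℝ) : ℝ :=
  -(f (v k) * ww i v * max 0 (1 - 2 * |v i - f (v k)|))

lemma upp_good {i k : ι} (hik : k ≠ i) : GoodP i (upp f i k) := by
  have h3 : BL (fun v : ι → ℝ => max 0 (1 - |v i|)) := by
    refine ⟨fun v => ?_, 1, zero_le_one, fun v v' => ?_⟩
    · rw [abs_of_nonneg (le_max_left _ _)]
      exact max_le zero_le_one (by have := abs_nonneg (v i); linarith)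
    · refine (max_lip _ _).trans ?_
      have : (1 - |v i|) - (1 - |v' i|) = |v' i| - |v i| := by ring
      rw [this, one_mul]
      refine (abs_abs_sub_abs_le_abs_sub _ _).trans ?_
      rw [abs_sub_comm]
      exact coord_le (v - v') i
  refine ⟨(((f_BL hLf hf1 hf2 k).mul (ww_BL i)).mul h3).2, fun v r r' => ?_, fun v hv => ?_⟩
  · unfold upp
    rw [ww_update, ww_update, update_of_ne hik, update_of_ne hik, update_self, update_self, ← mul_sub, abs_mul,
      abs_mul]
    have a1 := hf2 (v k)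
    have a2 : |ww i v| ≤ 1 := (ww_BL i).1 v
    have a3 : |max 0 (1 - |r|) - max 0 (1 - |r'|)| ≤ |r - r'| := by
      refine (max_lip _ _).trans ?_
      have : (1 - |r|) - (1 - |r'|) = |r'| - |r| := by ring
      rw [this]
      refine (abs_abs_sub_abs_le_abs_sub _ _).trans ?_
      rw [abs_sub_comm]
    have a4 : |f (v k)| * |ww i v| ≤ 1 / 4 * 1 := mul_le_mul a1 a2 (abs_nonneg _) (by norm_num)
    calc |f (v k)| * |ww i v| * |max 0 (1 - |r|) - max 0 (1 - |r'|)| ≤ (1 / 4 * 1) * |r - r'| :=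
          mul_le_mul a4 a3 (abs_nonneg _) (by norm_num)
      _ ≤ 1 / 2 * |r - r'| := by have := abs_nonneg (r - r'); linarith
  · unfold upp
    by_cases h : |v i| < 1
    · rw [ww_off hv h]; ring
    · rw [max_eq_left (by linarith), mul_zero]

lemma dnn_good {i k : ι} (hik : k ≠ i) : GoodP i (dnn f i k) := by
  have h3 : BL (fun v : ι → ℝ => max 0 (1 - 2 * |v i - f (v k)|)) := by
    refine ⟨fun v => ?_, 2 * (1 + Lf), by positivity, fun v v' => ?_⟩
    · rw [abs_of_nonneg (le_max_left _ _)]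
      exact max_le zero_le_one (by have := abs_nonneg (v i - f (v k)); linarith)
    · refine (max_lip _ _).trans ?_
      have : (1 - 2 * |v i - f (v k)|) - (1 - 2 * |v' i - f (v' k)|) =
        2 * (|v' i - f (v' k)| - |v i - f (v k)|) := by ring
      rw [this, abs_mul, abs_of_pos (by norm_num : (0 : ℝ) < 2)]
      have a1 := abs_abs_sub_abs_le_abs_sub (v' i - f (v' k)) (v i - f (v k))
      have a2 : |v' i - f (v' k) - (v i - f (v k))| ≤ |v i - v' i| + |f (v k) - f (v' k)| := by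
        have e : v' i - f (v' k) - (v i - f (v k)) = (f (v k) - f (v' k)) - (v i - v' i) := by ring
        rw [e]
        refine (abs_sub _ _).trans ?_
        linarith
      have a3 : |v i - v' i| ≤ ‖v - v'‖ := coord_le (v - v') i
      have a4 : |f (v k) - f (v' k)| ≤ Lf * ‖v - v'‖ :=
        (hf1 _ _).trans (mul_le_mul_of_nonneg_left (coord_le (v - v') k) hLf)
      nlinarith
  refine ⟨?_, fun v r r' => ?_, fun v hv => ?_⟩
  · obtain ⟨_, L, hL, h⟩ := ((f_BL hLf hf1 hf2 k).mul (ww_BL i)).mul h3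
    refine ⟨L, hL, fun v v' => ?_⟩
    unfold dnn
    rw [neg_sub_neg, abs_sub_comm]
    exact h v v'
  · unfold dnn
    rw [ww_update, ww_update, update_of_ne hik, update_of_ne hik, update_self, update_self]
    have e : -(f (v k) * ww i v * max 0 (1 - 2 * |r - f (v k)|)) - -(f (v k) * ww i v * max 0 (1 - 2 * |r' - f (v k)|))
      = f (v k) * ww i v * (max 0 (1 - 2 * |r' - f (v k)|) - max 0 (1 - 2 * |r - f (v k)|)) := by ring
    rw [e, abs_mul, abs_mul]
    have a1 := hf2 (v k)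
    have a2 : |ww i v| ≤ 1 := (ww_BL i).1 v
    have a3 : |max 0 (1 - 2 * |r' - f (v k)|) - max 0 (1 - 2 * |r - f (v k)|)| ≤ 2 * |r - r'| := by
      refine (max_lip _ _).trans ?_
      have : (1 - 2 * |r' - f (v k)|) - (1 - 2 * |r - f (v k)|) = 2 * (|r - f (v k)| - |r' - f (v k)|) := by ring
      rw [this, abs_mul, abs_of_pos (by norm_num : (0 : ℝ) < 2)]
      apply mul_le_mul_of_nonneg_left _ (by norm_num)
      refine (abs_abs_sub_abs_le_abs_sub _ _).trans (le_of_eq ?_)
      congr 1; ring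
    have a4 : |f (v k)| * |ww i v| ≤ 1 / 4 * 1 := mul_le_mul a1 a2 (abs_nonneg _) (by norm_num)
    calc |f (v k)| * |ww i v| * |max 0 (1 - 2 * |r' - f (v k)|) - max 0 (1 - 2 * |r - f (v k)|)|
        ≤ (1 / 4 * 1) * (2 * |r - r'|) := mul_le_mul a4 a3 (abs_nonneg _) (by norm_num)
      _ = 1 / 2 * |r - r'| := by ring
  · unfold dnn
    by_cases h : |v i| < 1
    · rw [ww_off hv h]; ring
    · rw [max_eq_left, mul_zero, neg_zero]
      have a1 := hf2 (v k)
      have a2 : |v i| ≤ |v i - f (v k)| + |f (v k)| := by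
        have := abs_add_le (v i - f (v k)) (f (v k))
        rwa [sub_add_cancel] at this
      linarith

end moves

/-! ### the last move -/

/-- push in the direction of `t` away from `K` -/
noncomputable def puu (K : Set (ι → ℝ)) (v : ι → ℝ) : ℝ := 1 / 2 * min (Metric.infDist v K) (max 0 (1 - ‖v‖))

omit [DecidableEq ι] in
lemma puu_lip (K : Set (ι → ℝ)) (v v' : ι → ℝ) : |puu K v - puu K v'| ≤ 1 / 2 * ‖v - v'‖ := by
  unfold puu
  rw [← mul_sub, abs_mul, abs_of_pos (by norm_num : (0 : ℝ) < 1 / 2)]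
  apply mul_le_mul_of_nonneg_left _ (by norm_num)
  refine (abs_min_sub_min_le_max _ _ _ _).trans ?_
  apply max_le
  · have := (Metric.lipschitz_infDist_pt K).dist_le_mul v v'
    rw [Real.dist_eq, dist_eq_norm, NNReal.coe_one, one_mul] at this
    exact this
  · refine (max_lip _ _).trans ?_
    have : (1 - ‖v‖) - (1 - ‖v'‖) = ‖v'‖ - ‖v‖ := by ring
    rw [this]
    refine (abs_norm_sub_norm_le _ _).trans (le_of_eq ?_)
    exact norm_sub_rev _ _

lemma puu_good (K : Set (ι → ℝ)) (t : ι) : GoodP t (puu K) := by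
  refine ⟨⟨1 / 2, by norm_num, puu_lip K⟩, fun v r r' => ?_, fun v hv => ?_⟩
  · refine (puu_lip K _ _).trans ?_
    apply mul_le_mul_of_nonneg_left _ (by norm_num)
    rw [pi_norm_le_iff_of_nonneg (abs_nonneg _)]
    intro j
    rw [Pi.sub_apply, Real.norm_eq_abs]
    by_cases hj : j = t
    · subst hj; rw [update_self, update_self]
    · rw [update_of_ne hj, update_of_ne hj, sub_self, abs_zero]; exact abs_nonneg _
  · unfold puu
    rw [max_eq_left (by linarith), min_eq_right Metric.infDist_nonneg, mul_zero]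

omit [DecidableEq ι] in
lemma puu_pos {K : Set (ι → ℝ)} (hK : IsClosed K) (hK0 : K.Nonempty) {v : ι → ℝ} (hv : v ∉ K) (h1 : ‖v‖ < 1) :
    0 < puu K v := by
  unfold puu
  have h2 := (hK.notMem_iff_infDist_pos hK0).1 hv
  apply mul_pos (by norm_num)
  rw [lt_min_iff]
  exact ⟨h2, lt_max_of_lt_right (by linarith)⟩

omit [DecidableEq ι] in
lemma puu_nonneg (K : Set (ι → ℝ)) (v : ι → ℝ) : 0 ≤ puu K v := by
  unfold puu
  apply mul_nonneg (by norm_num)
  exact le_min Metric.infDist_nonneg (le_max_left _ _)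

omit [DecidableEq ι] in
lemma puu_mem {K : Set (ι → ℝ)} {v : ι → ℝ} (hv : v ∈ K) : puu K v = 0 := by
  unfold puu
  rw [Metric.infDist_zero_of_mem hv, min_eq_left (le_max_left _ _), mul_zero]

end Pool.Agent.Q132.CB
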