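import Mathlib
import Pool.Agent.Q132.CB.B
import Pool.Agent.Q132.CB.C

/-!
# Maps of zero entropy with a given subshift (helper132)
-/

set_option autoImplicit false

namespace Pool.Agent.Q132.CB

open Finset Filter Topology Function Dynamics
open Pool.Agent.Q132.TS (ZE HasWords)

variable {ι : Type*} [Fintype ι] [DecidableEq ι]

/-- the clamp -/
noncomputable def cl (x : ℝ) : ℝ := max (-(1 / 4)) (min (1 / 4) x)

lemma cl_lip (x y : ℝ) : |cl x - cl y| ≤ 1 * |x - y| := by rw [one_mul]; exact clamp_lip x y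
lemma cl_le (x : ℝ) : |cl x| ≤ 1 / 4 := clamp_le x
lemma cl_eq {x : ℝ} (h : |x| ≤ 1 / 4) : cl x = x := clamp_eq h

/-- the point with the coordinates `a`, `b` -/
noncomputable def pt (x y : ι) (a b : ℝ) : ι → ℝ := update (update 0 x a) y b

section pts

omit [Fintype ι]

variable {x y : ι} (hxy : x ≠ y)

lemma pt_y (a b : ℝ) : pt x y a b y = b := update_self _ _ _

include hxy in
lemma pt_x (a b : ℝ) : pt x y a b x = a := by
  unfold pt; rw [update_of_ne hxy, update_self]

lemma pt_update_y (a b b' : ℝ) : update (pt x y a b) y b' = pt x y a b' := by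
  unfold pt; rw [update_idem]

include hxy in
lemma pt_update_x (a b a' : ℝ) : update (pt x y a b) x a' = pt x y a' b := by
  unfold pt; rw [update_comm hxy, update_comm hxy, update_idem]

lemma pt_le {a b : ℝ} (ha : |a| ≤ 1 / 4) (hb : |b| ≤ 1 / 4) (j : ι) : |pt x y a b j| ≤ 1 / 4 := by
  unfold pt
  by_cases h1 : j = y
  · rw [h1, update_self]; exact hb
  · rw [update_of_ne h1]
    by_cases h2 : j = x
    · rw [h2, update_self]; exact ha
    · rw [update_of_ne h2]
      show |(0 : ℝ)| ≤ 1 / 4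
      rw [abs_zero]; norm_num

end pts

lemma pt_norm {x y : ι} {a b : ℝ} (ha : |a| ≤ 1 / 4) (hb : |b| ≤ 1 / 4) : ‖pt x y a b‖ ≤ 1 / 4 := by
  rw [pi_norm_le_iff_of_nonneg (by norm_num)]
  intro j
  exact pt_le ha hb j

lemma ww_pt {i x y : ι} {a b : ℝ} (ha : |a| ≤ 1 / 4) (hb : |b| ≤ 1 / 4) : ww i (pt x y a b) = 1 :=
  ww_one (fun j => (pt_le ha hb j).trans (by norm_num))

section moves

variable {x y : ι} (hxy : x ≠ y) {f : ℝ → ℝ} (hf2 : ∀ x, |f x| ≤ 1 / 4)
include hxy

lemma mv_upp_y {a : ℝ} (ha : |a| ≤ 1 / 4) : mv y (upp f y x) (pt x y a 0) = pt x y a (f a) := by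
  unfold mv upp
  rw [ww_pt ha (by rw [abs_zero]; norm_num), pt_y, pt_x hxy, abs_zero, sub_zero, max_eq_right zero_le_one,
    mul_one, mul_one, zero_add, pt_update_y]

lemma mv_dnn_x {a b : ℝ} (ha : |a| ≤ 1 / 4) (hb : |b| ≤ 1 / 4) (hf : f b = a) :
    mv x (dnn f x y) (pt x y a b) = pt x y 0 b := by
  unfold mv dnn
  rw [ww_pt ha hb, pt_y, pt_x hxy, hf, sub_self, abs_zero, mul_zero, sub_zero, max_eq_right zero_le_one,
    mul_one, mul_one, add_neg_cancel, pt_update_x hxy]

lemma mv_upp_x {b : ℝ} (hb : |b| ≤ 1 / 4) : mv x (upp f x y) (pt x y 0 b) = pt x y (f b) b := by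
  unfold mv upp
  rw [ww_pt (by rw [abs_zero]; norm_num) hb, pt_y, pt_x hxy, abs_zero, sub_zero, max_eq_right zero_le_one,
    mul_one, mul_one, zero_add, pt_update_x hxy]

lemma mv_dnn_y {a b : ℝ} (ha : |a| ≤ 1 / 4) (hb : |b| ≤ 1 / 4) (hf : f a = b) :
    mv y (dnn f y x) (pt x y a b) = pt x y a 0 := by
  unfold mv dnn
  rw [ww_pt ha hb, pt_y, pt_x hxy, hf, sub_self, abs_zero, mul_zero, sub_zero, max_eq_right zero_le_one,
    mul_one, mul_one, add_neg_cancel, pt_update_y]

end moves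

/-- the map which realizes `T` on the first coordinate; `S` is the inverse of `T` -/
noncomputable def GG (x y : ι) (T S : ℝ → ℝ) : (ι → ℝ) → (ι → ℝ) :=
  mv y (dnn cl y x) ∘ mv x (upp cl x y) ∘ mv x (dnn S x y) ∘ mv y (upp T y x)

section GGs

variable {x y t : ι} (hxy : x ≠ y) (hxt : t ≠ x) (hyt : t ≠ y) {T S : ℝ → ℝ} {L : ℝ} (hL : 0 ≤ L)
  (hT1 : ∀ x y, |T x - T y| ≤ L * |x - y|) (hT2 : ∀ x, |T x| ≤ 1 / 4)
  (hS1 : ∀ x y, |S x - S y| ≤ L * |x - y|) (hS2 : ∀ x, |S x| ≤ 1 / 4)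

include hxy hL hT1 hT2 hS1 hS2 in
lemma GG_Hm : Hm (GG x y T S) := by
  unfold GG
  refine Hm.comp (Hm.mv (dnn_good zero_le_one cl_lip cl_le hxy)) (Hm.comp
    (Hm.mv (upp_good zero_le_one cl_lip cl_le hxy.symm)) (Hm.comp
    (Hm.mv (dnn_good hL hS1 hS2 hxy.symm)) (Hm.mv (upp_good hL hT1 hT2 hxy))))

include hxy in
lemma GG_pt {a a' : ℝ} (ha : |a| ≤ 1 / 4) (ha' : |a'| ≤ 1 / 4) (h1 : T a = a') (h2 : S a' = a) :
    GG x y T S (pt x y a 0) = pt x y a' 0 := by
  unfold GG
  simp only [Function.comp_apply]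
  rw [mv_upp_y hxy ha, h1, mv_dnn_x hxy ha ha' h2, mv_upp_x hxy ha', cl_eq ha',
    mv_dnn_y hxy ha' ha' (cl_eq ha')]

lemma mv_ne {i j : ι} (h : j ≠ i) (ψ : (ι → ℝ) → ℝ) (v : ι → ℝ) : mv i ψ v j = v j := update_of_ne h _ _

include hxt hyt in
lemma GG_t (v : ι → ℝ) : GG x y T S v t = v t := by
  unfold GG
  simp only [Function.comp_apply]
  rw [mv_ne hyt, mv_ne hxt, mv_ne hxt, mv_ne hyt]

end GGs

open scoped Classical in
/-- the number of visits outside of a neighbourhood of the attracting set is bounded -/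
lemma visits {F : (ι → ℝ) → (ι → ℝ)} (hF : Continuous F) (hoff : ∀ v, 1 ≤ ‖v‖ → F v = v)
    (hball : ∀ v, ‖v‖ ≤ 1 → ‖F v‖ ≤ 1)
    {K : Set (ι → ℝ)} {τ : (ι → ℝ) → ℝ} (hτ : Continuous τ) (hτ1 : ∀ v, ‖v‖ ≤ 1 → |τ v| ≤ 1)
    (hinc : ∀ v, ‖v‖ < 1 → v ∉ K → τ v < τ (F v)) (hge : ∀ v, τ v ≤ τ (F v))
    {N : Set (ι → ℝ)} (hN : IsOpen N) (hZN : K ∪ Metric.sphere 0 1 ⊆ N) :
    ∃ b : ℕ, ∀ m ∈ Metric.closedBall (0 : ι → ℝ) 1, ∀ n : ℕ,
      ((range n).filter (fun k => F^[k] m ∉ N)).card ≤ b := by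
  have hC : IsCompact (Metric.closedBall (0 : ι → ℝ) 1 ∩ Nᶜ) :=
    (isCompact_closedBall 0 1).inter_right hN.isClosed_compl
  obtain ⟨δ, hδ, hmin⟩ : ∃ δ : ℝ, 0 < δ ∧ ∀ v, ‖v‖ ≤ 1 → v ∉ N → τ v + δ ≤ τ (F v) := by
    by_cases hne : (Metric.closedBall (0 : ι → ℝ) 1 ∩ Nᶜ).Nonempty
    · obtain ⟨v0, ⟨hv0, hv1⟩, hmin⟩ := hC.exists_isMinOn hne
        (f := fun v => τ (F v) - τ v) ((hτ.comp hF).sub hτ).continuousOn
      rw [mem_closedBall_zero_iff] at hv0
      refine ⟨τ (F v0) - τ v0, ?_, fun v hv hvN => ?_⟩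
      · have h1 : ‖v0‖ < 1 := by
          rcases lt_or_eq_of_le hv0 with h | h
          · exact h
          · exact absurd (hZN (Or.inr (mem_sphere_zero_iff_norm.2 h))) hv1
        have h2 : v0 ∉ K := fun h => hv1 (hZN (Or.inl h))
        linarith [hinc v0 h1 h2]
      · have := hmin (⟨mem_closedBall_zero_iff.2 hv, hvN⟩ : v ∈ Metric.closedBall (0 : ι → ℝ) 1 ∩ Nᶜ)
        have h3 : τ (F v0) - τ v0 ≤ τ (F v) - τ v := this
        linarith
    · refine ⟨1, one_pos, fun v hv hvN => ?_⟩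
      exact absurd ⟨v, mem_closedBall_zero_iff.2 hv, hvN⟩ hne
  have hfix : ∀ v : ι → ℝ, ‖v‖ = 1 → v ∈ N := fun v hv => hZN (Or.inr (mem_sphere_zero_iff_norm.2 hv))
  obtain ⟨c, hc1, hc2⟩ : ∃ c : (ι → ℝ) → ℝ, (∀ v ∈ N, c v = 0) ∧ ∀ v, v ∉ N → c v = 1 :=
    ⟨fun v => if v ∉ N then 1 else 0, fun v hv => if_neg (not_not.2 hv), fun v hv => if_pos hv⟩
  have key : ∀ n : ℕ, ∀ v, ‖v‖ ≤ 1 →
      δ * (∑ k ∈ range n, c (F^[k] v)) ≤ 1 - τ v + δ ∧
      (‖v‖ = 1 → ∑ k ∈ range n, c (F^[k] v) = 0) := by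
    intro n
    induction n with
    | zero =>
      intro v hv
      have := (abs_le.1 (hτ1 v hv)).2
      refine ⟨?_, fun _ => by simp⟩
      rw [range_zero, sum_empty, mul_zero]
      linarith
    | succ n ih =>
      intro v hv
      rw [sum_range_succ']
      have e : ∀ k, F^[k + 1] v = F^[k] (F v) := fun k => Function.iterate_succ_apply F k v
      simp only [e, Function.iterate_zero, id_eq]
      obtain ⟨i1, i2⟩ := ih (F v) (hball v hv)
      rcases lt_or_eq_of_le hv with h | h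
      · refine ⟨?_, fun h' => absurd h' h.ne⟩
        rcases lt_or_eq_of_le (hball v hv) with h2 | h2
        · by_cases hvN : v ∈ N
          · rw [hc1 v hvN, add_zero]
            linarith [hge v]
          · rw [hc2 v hvN, mul_add, mul_one]
            linarith [hmin v hv hvN]
        · rw [i2 h2, zero_add]
          have := (abs_le.1 (hτ1 v hv)).2
          by_cases hvN : v ∈ N
          · rw [hc1 v hvN, mul_zero]; linarith
          · rw [hc2 v hvN, mul_one]; linarith
      · have h3 : F v = v := hoff v h.ge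
        rw [h3] at i1 i2 ⊢
        have h4 : (∑ k ∈ range n, c (F^[k] v)) + c v = 0 := by
          rw [i2 h, hc1 v (hfix v h), add_zero]
        rw [h4]
        have := (abs_le.1 (hτ1 v hv)).2
        exact ⟨by rw [mul_zero]; linarith, fun _ => rfl⟩
  refine ⟨⌈(2 + δ) / δ⌉₊, fun m hm n => ?_⟩
  rw [mem_closedBall_zero_iff] at hm
  have h1 := (key n m hm).1
  have h2 := (abs_le.1 (hτ1 m hm)).1
  have h3 : (((range n).filter (fun k => F^[k] m ∉ N)).card : ℝ) =
      ∑ k ∈ range n, c (F^[k] m) := by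
    rw [card_filter, Nat.cast_sum]
    apply sum_congr rfl
    intro k _
    by_cases hk : F^[k] m ∈ N
    · rw [hc1 _ hk, if_neg (not_not.2 hk), Nat.cast_zero]
    · rw [hc2 _ hk, if_pos hk, Nat.cast_one]
  have h4 : (((range n).filter (fun k => F^[k] m ∉ N)).card : ℝ) ≤ (2 + δ) / δ := by
    rw [h3, le_div_iff₀ hδ, mul_comm]
    linarith
  exact_mod_cast h4.trans (Nat.le_ceil _)

section embed

variable {θ : ℝ} (h0 : 0 < θ) (h1 : θ ≤ 1 / 3)
include h0 h1

lemma kap_abs (w : ℤ → Bool) : |kap θ w| ≤ 1 / 4 := by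
  have := kap_range h0 h1 w
  rw [abs_le]; constructor <;> linarith

lemma pt_cont (x y : ι) : Continuous (fun w : ℤ → Bool => pt x y (kap θ w) 0) := by
  unfold pt
  have h2 : Continuous (fun w : ℤ → Bool => update (0 : ι → ℝ) x (kap θ w)) :=
    continuous_const.update x (kap_cont h0 h1)
  exact h2.update y continuous_const

omit h0 h1 in
/-- the invariant Cantor set -/
def K0 (θ : ℝ) (x y : ι) (b : ℕ → Bool) : Set (ι → ℝ) := (fun w : ℤ → Bool => pt x y (kap θ w) 0) '' Om b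

lemma K0_closed (x y : ι) (b : ℕ → Bool) : IsClosed (K0 θ x y b) :=
  ((isClosed_closure.isCompact).image (pt_cont h0 h1 x y)).isClosed

omit h0 h1 in
lemma K0_nonempty (x y : ι) (b : ℕ → Bool) : (K0 θ x y b).Nonempty := ⟨_, _, bt_mem b, rfl⟩

/-- **Homeomorphisms.** A bi-Lipschitz homeomorphism supported in the unit cube, of zero entropy, which extends
the subshift generated by the sequence `b` of zero entropy. -/
theorem exists_homeo {x y t : ι} (hxy : x ≠ y) (hxt : t ≠ x) (hyt : t ≠ y) {b : ℕ → Bool} (hb : ZE b) :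
    ∃ F : (ι → ℝ) → (ι → ℝ), Hm F ∧ EZ F (Metric.closedBall 0 1) ∧
      ∀ w ∈ Om b, F (pt x y (kap θ w) 0) = pt x y (kap θ (sg w)) 0 := by
  have hL : (0 : ℝ) ≤ 3 / θ ^ 2 := by positivity
  obtain ⟨T, hT1, hT2, hT⟩ := exists_ext h0 h1 sg hL (kap_sg h0 h1)
  obtain ⟨S, hS1, hS2, hS⟩ := exists_ext h0 h1 sgi hL (kap_sgi h0 h1)
  set G := GG x y T S with hG
  have hGm : Hm G := GG_Hm hxy hL hT1 hT2 hS1 hS2
  have hGpt : ∀ w, G (pt x y (kap θ w) 0) = pt x y (kap θ (sg w)) 0 := by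
    intro w
    apply GG_pt hxy (kap_abs h0 h1 w) (kap_abs h0 h1 (sg w)) (hT w)
    rw [hS, sgi_sg]
  set K := K0 θ x y b with hK
  have hKc : IsClosed K := K0_closed h0 h1 x y b
  have hKn : K.Nonempty := K0_nonempty x y b
  set F : (ι → ℝ) → (ι → ℝ) := mv t (puu K) ∘ G with hF
  have hFm : Hm F := (Hm.mv (puu_good K t)).comp hGm
  have hGK : ∀ w ∈ Om b, pt x y (kap θ (sg w)) 0 ∈ K := fun w hw => ⟨sg w, Om_maps b hw, rfl⟩
  have hFpt : ∀ w ∈ Om b, F (pt x y (kap θ w) 0) = pt x y (kap θ (sg w)) 0 := by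
    intro w hw
    show mv t (puu K) (G (pt x y (kap θ w) 0)) = _
    rw [hGpt]
    unfold mv
    rw [puu_mem (hGK w hw), add_zero, update_eq_self]
  refine ⟨F, hFm, ?_, hFpt⟩
  have hball : ∀ v, ‖v‖ ≤ 1 → ‖F v‖ ≤ 1 := by
    intro v hv
    rcases lt_or_eq_of_le hv with h | h
    · exact (hFm.ball h).le
    · rw [hFm.off v h.ge]; exact hv
  apply EZ.of_visits hFm.cont (isCompact_closedBall 0 1)
    (fun v hv => mem_closedBall_zero_iff.2 (hball v (mem_closedBall_zero_iff.1 hv)))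
    (Z := K ∪ Metric.sphere 0 1)
  · apply EZ.union
    · exact EZ_Om (pt_cont h0 h1 x y) hFpt hb
    · exact EZ.of_fixed (isCompact_sphere 0 1) (fun v hv => hFm.off v (mem_sphere_zero_iff_norm.1 hv).ge)
  · intro N hN hZN
    have hτ : ∀ v, F v t = v t + puu K (G v) := by
      intro v
      show mv t (puu K) (G v) t = _
      unfold mv
      rw [update_self, hG, GG_t hxt hyt]
    apply visits hFm.cont hFm.off hball (K := K) (τ := fun v => v t) (continuous_apply t)
      (fun v hv => (coord_le v t).trans hv) _ _ hN hZN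
    · intro v hv hvK
      show v t < F v t
      rw [hτ]
      have hGK' : G v ∉ K := by
        rintro ⟨w, hw, hw2⟩
        apply hvK
        refine ⟨sgi w, Om_mapsi b hw, ?_⟩
        apply hGm.inj
        show G (pt x y (kap θ (sgi w)) 0) = G v
        rw [hGpt, sg_sgi]; exact hw2
      have := puu_pos hKc hKn hGK' (hGm.ball hv)
      linarith
    · intro v
      show v t ≤ F v t
      rw [hτ]
      have := puu_nonneg K (G v)
      linarith

omit h0 h1 in
lemma clone_lip (x y : ℝ) : |max (-1) (min 1 x) - max (-1) (min 1 y)| ≤ |x - y| := by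
  refine (abs_max_sub_max_le_max _ _ _ _).trans ?_
  rw [sub_self, abs_zero]
  apply max_le (abs_nonneg _)
  refine (abs_min_sub_min_le_max _ _ _ _).trans ?_
  rw [sub_self, abs_zero]
  exact max_le (abs_nonneg _) le_rfl

/-- **Continuous maps.** A Lipschitz map supported in the unit cube, of zero entropy, which extends
the subshift generated by the sequence `b` of zero entropy. -/
theorem exists_map {x t : ι} (hxt : x ≠ t) {b : ℕ → Bool} (hb : ZE b) :
    ∃ F : (ι → ℝ) → (ι → ℝ), (∃ L : ℝ, 0 ≤ L ∧ ∀ v v', ‖F v - F v'‖ ≤ L * ‖v - v'‖) ∧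
      (∀ v, 1 ≤ ‖v‖ → F v = v) ∧ (∀ v, ‖v‖ ≤ 1 → ‖F v‖ ≤ 1) ∧ EZ F (Metric.closedBall 0 1) ∧
      ∀ w ∈ Om b, F (pt x t (kap θ w) 0) = pt x t (kap θ (sg w)) 0 := by
  have hL : (0 : ℝ) ≤ 3 / θ ^ 2 := by positivity
  obtain ⟨T, hT1, hT2, hT⟩ := exists_ext h0 h1 sg hL (kap_sg h0 h1)
  set K := K0 θ x t b with hK
  have hKc : IsClosed K := K0_closed h0 h1 x t b
  have hKn : K.Nonempty := K0_nonempty x t b
  set g : (ι → ℝ) → ℝ := fun v => qq ‖v‖ * (T (v x) - max (-1) (min 1 (v x))) with hg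
  set F : (ι → ℝ) → (ι → ℝ) := fun v => update (update v x (v x + g v)) t (v t + puu K v) with hF
  have hqBL : BL (fun v : ι → ℝ => qq ‖v‖) := by
    refine ⟨fun v => ?_, 2, by norm_num, fun v v' => ?_⟩
    · show |qq ‖v‖| ≤ 1
      rw [abs_of_nonneg (qq_nonneg _)]; exact qq_le _
    · refine (qq_lip _ _).trans ?_
      exact mul_le_mul_of_nonneg_left (abs_norm_sub_norm_le v v') (by norm_num)
  have hgBL : BL (fun v : ι → ℝ => (T (v x) - max (-1) (min 1 (v x))) / 2) := by
    refine ⟨fun v => ?_, (3 / θ ^ 2 + 1) / 2, by positivity, fun v v' => ?_⟩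
    · have a1 := abs_le.1 (hT2 (v x))
      have a2 : max (-1) (min 1 (v x)) ≤ 1 := max_le (by norm_num) (min_le_left _ _)
      have a3 : -1 ≤ max (-1) (min 1 (v x)) := le_max_left _ _
      show |(T (v x) - max (-1) (min 1 (v x))) / 2| ≤ 1
      rw [abs_le]; constructor <;> linarith
    · show |(T (v x) - max (-1) (min 1 (v x))) / 2 - (T (v' x) - max (-1) (min 1 (v' x))) / 2| ≤ _
      have a1 := hT1 (v x) (v' x)
      have a2 := clone_lip (v x) (v' x)
      have a3 : |v x - v' x| ≤ ‖v - v'‖ := coord_le (v - v') x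
      have e : (T (v x) - max (-1) (min 1 (v x))) / 2 - (T (v' x) - max (-1) (min 1 (v' x))) / 2 =
        ((T (v x) - T (v' x)) - (max (-1) (min 1 (v x)) - max (-1) (min 1 (v' x)))) / 2 := by ring
      rw [e, abs_div, abs_of_pos (by norm_num : (0 : ℝ) < 2)]
      have a4 := abs_sub (T (v x) - T (v' x)) (max (-1) (min 1 (v x)) - max (-1) (min 1 (v' x)))
      have a5 : 3 / θ ^ 2 * |v x - v' x| ≤ 3 / θ ^ 2 * ‖v - v'‖ := mul_le_mul_of_nonneg_left a3 hL
      rw [div_mul_eq_mul_div]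
      apply div_le_div_of_nonneg_right _ (by norm_num)
      rw [add_mul, one_mul]
      linarith
  obtain ⟨_, M, hM, hM2⟩ := hqBL.mul hgBL
  have hglip : ∀ v v', |g v - g v'| ≤ 2 * M * ‖v - v'‖ := by
    intro v v'
    have := hM2 v v'
    have e : g v - g v' = 2 * ((fun v => qq ‖v‖ * ((T (v x) - max (-1) (min 1 (v x))) / 2)) v -
      (fun v => qq ‖v‖ * ((T (v x) - max (-1) (min 1 (v x))) / 2)) v') := by
      simp only [hg]; ring
    rw [e, abs_mul, abs_of_pos (by norm_num : (0 : ℝ) < 2), mul_assoc]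
    exact mul_le_mul_of_nonneg_left this (by norm_num)
  have hoff : ∀ v, 1 ≤ ‖v‖ → F v = v := by
    intro v hv
    simp only [hF, hg]
    rw [qq_zero hv, zero_mul, add_zero, update_eq_self, (puu_good K t).off v hv, add_zero, update_eq_self]
  have hlip : ∀ v v', ‖F v - F v'‖ ≤ (1 + 2 * M + 1) * ‖v - v'‖ := by
    intro v v'
    have hn := norm_nonneg (v - v')
    rw [pi_norm_le_iff_of_nonneg (by positivity)]
    intro j
    rw [Pi.sub_apply, Real.norm_eq_abs]
    simp only [hF]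
    by_cases hj : j = t
    · subst hj
      rw [update_self, update_self]
      have a1 := puu_lip K v v'
      have a2 : |v j - v' j| ≤ ‖v - v'‖ := coord_le (v - v') j
      calc |v j + puu K v - (v' j + puu K v')| = |(v j - v' j) + (puu K v - puu K v')| := by congr 1; ring
        _ ≤ |v j - v' j| + |puu K v - puu K v'| := abs_add_le _ _
        _ ≤ _ := by nlinarith
    · rw [update_of_ne hj, update_of_ne hj]
      by_cases hjx : j = x
      · subst hjx
        rw [update_self, update_self]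
        have a1 := hglip v v'
        have a2 : |v j - v' j| ≤ ‖v - v'‖ := coord_le (v - v') j
        calc |v j + g v - (v' j + g v')| = |(v j - v' j) + (g v - g v')| := by congr 1; ring
          _ ≤ |v j - v' j| + |g v - g v'| := abs_add_le _ _
          _ ≤ _ := by nlinarith
      · rw [update_of_ne hjx, update_of_ne hjx]
        have a2 : |v j - v' j| ≤ ‖v - v'‖ := coord_le (v - v') j
        nlinarith
  have hcont : Continuous F := by
    apply (LipschitzWith.of_dist_le_mul (K := ⟨1 + 2 * M + 1, by positivity⟩) (fun v v' => ?_)).continuous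
    rw [dist_eq_norm, dist_eq_norm]
    exact hlip v v'
  have hball : ∀ v, ‖v‖ ≤ 1 → ‖F v‖ ≤ 1 := by
    intro v hv
    rw [pi_norm_le_iff_of_nonneg zero_le_one]
    intro j
    rw [Real.norm_eq_abs]
    simp only [hF]
    have hc : ∀ j, |v j| ≤ ‖v‖ := coord_le v
    by_cases hj : j = t
    · subst hj
      rw [update_self]
      have a1 : puu K v ≤ 1 / 2 * (1 - ‖v‖) := by
        unfold puu
        apply mul_le_mul_of_nonneg_left _ (by norm_num)
        refine (min_le_right _ _).trans (le_of_eq ?_)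
        exact max_eq_right (by linarith)
      have a2 := puu_nonneg K v
      have a3 := hc j
      refine (abs_add_le _ _).trans ?_
      rw [abs_of_nonneg a2]
      linarith
    · rw [update_of_ne hj]
      by_cases hjx : j = x
      · subst hjx
        rw [update_self]
        have a1 := (hc j).trans hv
        have a2 := abs_le.1 a1
        have e : max (-1) (min 1 (v j)) = v j := by
          rw [min_eq_right a2.2, max_eq_right a2.1]
        simp only [hg]
        rw [e]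
        have q1 := qq_nonneg ‖v‖
        have q2 := qq_le ‖v‖
        have t1 := abs_le.1 (hT2 (v j))
        have e2 : v j + qq ‖v‖ * (T (v j) - v j) = (1 - qq ‖v‖) * v j + qq ‖v‖ * T (v j) := by ring
        rw [e2, abs_le]
        constructor <;> nlinarith
      · rw [update_of_ne hjx]
        exact (hc j).trans hv
  have hFpt : ∀ w ∈ Om b, F (pt x t (kap θ w) 0) = pt x t (kap θ (sg w)) 0 := by
    intro w hw
    have hka := kap_abs h0 h1 w
    have z4 : |(0 : ℝ)| ≤ 1 / 4 := by rw [abs_zero]; norm_num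
    have hmem : pt x t (kap θ w) 0 ∈ K := ⟨w, hw, rfl⟩
    simp only [hF, hg]
    rw [puu_mem hmem, add_zero, pt_x hxt, pt_y, qq_one ((pt_norm hka z4).trans (by norm_num)), one_mul, hT]
    have e : max (-1) (min 1 (kap θ w)) = kap θ w := by
      have := abs_le.1 hka
      rw [min_eq_right (by linarith), max_eq_right (by linarith)]
    rw [e, add_sub_cancel, pt_update_x hxt, pt_update_y]
  refine ⟨F, ⟨_, by positivity, hlip⟩, hoff, hball, ?_, hFpt⟩
  apply EZ.of_visits hcont (isCompact_closedBall 0 1)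
    (fun v hv => mem_closedBall_zero_iff.2 (hball v (mem_closedBall_zero_iff.1 hv)))
    (Z := K ∪ Metric.sphere 0 1)
  · apply EZ.union
    · exact EZ_Om (pt_cont h0 h1 x t) hFpt hb
    · exact EZ.of_fixed (isCompact_sphere 0 1) (fun v hv => hoff v (mem_sphere_zero_iff_norm.1 hv).ge)
  · intro N hN hZN
    have hτ : ∀ v, F v t = v t + puu K v := by
      intro v
      simp only [hF]
      rw [update_self]
    apply visits hcont hoff hball (K := K) (τ := fun v => v t) (continuous_apply t)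
      (fun v hv => (coord_le v t).trans hv) _ _ hN hZN
    · intro v hv hvK
      show v t < F v t
      rw [hτ]
      have := puu_pos hKc hKn hvK hv
      linarith
    · intro v
      show v t ≤ F v t
      rw [hτ]
      have := puu_nonneg K v
      linarith

end embed

end Pool.Agent.Q132.CB
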