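import Mathlib
import Pool.Agent.Q132.CB.D
import Pool.Agent.Q132.TS.G

/-!
# Orthogonality to homeomorphisms of the cube (helper132)
-/

set_option autoImplicit false

namespace Pool.Agent.Q132.CB

open Finset Filter Topology Function Dynamics
open Pool.Agent.Q132.TS (ZE HasWords Good Av ind Sar)

variable {ι : Type*} [Fintype ι] [DecidableEq ι]

/-! ### extension to a compact space -/

section ext

variable {M : Type*} [MetricSpace M] {j : (ι → ℝ) → M} (hj : IsOpenEmbedding j)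
include hj

omit [DecidableEq ι] in
lemma extend_cont {Y : Type*} [TopologicalSpace Y] {φ : (ι → ℝ) → Y} {ψ : M → Y} (hφ : Continuous φ)
    (hψ : Continuous ψ) (h : ∀ v, 1 ≤ ‖v‖ → φ v = ψ (j v)) : Continuous (Function.extend j φ ψ) := by
  rw [continuous_iff_continuousAt]
  intro m
  by_cases hm : m ∈ Set.range j
  · obtain ⟨v, rfl⟩ := hm
    rw [← hj.continuousAt_iff]
    have : Function.extend j φ ψ ∘ j = φ := by
      funext v; exact hj.injective.extend_apply _ _ _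
    rw [this]
    exact hφ.continuousAt
  · have hU : (j '' Metric.closedBall 0 1)ᶜ ∈ 𝓝 m := by
      apply IsOpen.mem_nhds
      · exact ((isCompact_closedBall 0 1).image hj.continuous).isClosed.isOpen_compl
      · rintro ⟨v, _, hv⟩; exact hm ⟨v, hv⟩
    apply hψ.continuousAt.congr
    filter_upwards [hU] with m' hm'
    by_cases h' : ∃ v, j v = m'
    · obtain ⟨v, rfl⟩ := h'
      rw [hj.injective.extend_apply]
      have : ¬ ‖v‖ ≤ 1 := fun hv => hm' ⟨v, mem_closedBall_zero_iff.2 hv, rfl⟩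
      exact (h v (by linarith)).symm
    · rw [Function.extend_apply' _ _ _ h']

/-- the extended map -/
noncomputable def FM (j : (ι → ℝ) → M) (F : (ι → ℝ) → (ι → ℝ)) : M → M := Function.extend j (j ∘ F) id

variable {F : (ι → ℝ) → (ι → ℝ)}

omit [Fintype ι] [DecidableEq ι] in
lemma FM_apply (v : ι → ℝ) : FM j F (j v) = j (F v) := hj.injective.extend_apply _ _ _

omit [DecidableEq ι] in
lemma FM_cont (hF : Continuous F) (hoff : ∀ v, 1 ≤ ‖v‖ → F v = v) : Continuous (FM j F) := by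
  apply extend_cont hj (hj.continuous.comp hF) continuous_id
  intro v hv
  show j (F v) = j v
  rw [hoff v hv]

omit [DecidableEq ι] in
lemma FM_off (hoff : ∀ v, 1 ≤ ‖v‖ → F v = v) (m : M) (hm : m ∉ j '' Metric.ball 0 1) : FM j F m = m := by
  by_cases h' : ∃ v, j v = m
  · obtain ⟨v, rfl⟩ := h'
    rw [FM_apply hj, hoff]
    by_contra hv
    exact hm ⟨v, mem_ball_zero_iff.2 (not_le.1 hv), rfl⟩
  · unfold FM; rw [Function.extend_apply' _ _ _ h']; rfl

omit [DecidableEq ι] in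
lemma FM_EZ [CompactSpace M] (hoff : ∀ v, 1 ≤ ‖v‖ → F v = v) (hball : ∀ v, ‖v‖ ≤ 1 → ‖F v‖ ≤ 1)
    (hE : EZ F (Metric.closedBall 0 1)) : EZ (FM j F) Set.univ := by
  have h1 : EZ (FM j F) (j '' Metric.closedBall 0 1) := by
    apply hE.image
    · intro v hv; exact mem_closedBall_zero_iff.2 (hball v (mem_closedBall_zero_iff.1 hv))
    · exact (isCompact_closedBall 0 1).uniformContinuousOn_of_continuous hj.continuous.continuousOn
    · intro v _; exact FM_apply hj v
  have h2 : EZ (FM j F) (j '' Metric.ball 0 1)ᶜ := by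
    apply EZ.of_fixed
    · exact (hj.isOpenMap _ Metric.isOpen_ball).isClosed_compl.isCompact
    · intro m hm; exact FM_off hj hoff m hm
  apply (h1.union h2).mono_set
  intro m _
  by_cases hm : m ∈ j '' Metric.ball 0 1
  · exact Or.inl (Set.image_mono Metric.ball_subset_closedBall hm)
  · exact Or.inr hm

omit [Fintype ι] [DecidableEq ι] in
lemma FM_bij (hF : Function.Bijective F) : Function.Bijective (FM j F) := by
  constructor
  · intro m m' h
    by_cases h1 : ∃ v, j v = m <;> by_cases h2 : ∃ v, j v = m'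
    · obtain ⟨v, rfl⟩ := h1
      obtain ⟨v', rfl⟩ := h2
      rw [FM_apply hj, FM_apply hj] at h
      rw [hF.1 (hj.injective h)]
    · obtain ⟨v, rfl⟩ := h1
      rw [FM_apply hj] at h
      unfold FM at h
      rw [Function.extend_apply' _ _ _ h2] at h
      exact absurd ⟨_, h⟩ h2
    · obtain ⟨v, rfl⟩ := h2
      rw [FM_apply hj] at h
      unfold FM at h
      rw [Function.extend_apply' _ _ _ h1] at h
      exact absurd ⟨_, h.symm⟩ h1
    · unfold FM at h
      rw [Function.extend_apply' _ _ _ h1, Function.extend_apply' _ _ _ h2] at h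
      exact h
  · intro m
    by_cases h1 : ∃ v, j v = m
    · obtain ⟨v, rfl⟩ := h1
      obtain ⟨w, rfl⟩ := hF.2 v
      exact ⟨j w, FM_apply hj w⟩
    · refine ⟨m, ?_⟩
      unfold FM
      rw [Function.extend_apply' _ _ _ h1]; rfl

end ext

/-! ### averages -/

lemma approx_ind {κ : ℕ → ℕ → ℂ} (hκ : Good κ) {b : ℕ → Bool} {c : ℝ} (hc : 0 < c)
    (H : ∀ θ : ℝ, 0 < θ → θ ≤ 1 / 3 → ∃ s : ℕ → ℝ, (∀ n, |s n - (if b n then c else 0)| ≤ 3 / 16 * θ) ∧
      Tendsto (Av κ (fun n => (s n : ℂ))) atTop (𝓝 0)) : Tendsto (Av κ (ind b)) atTop (𝓝 0) := by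
  obtain ⟨C, hC0, hC⟩ := hκ
  apply Pool.Agent.Q132.TS.tendsto_of_close hC0
  intro ε hε
  obtain ⟨s, h1, h2⟩ := H (min (1 / 3) (c * ε)) (by positivity) (min_le_left _ _)
  refine ⟨fun N => (1 / c : ℂ) * Av κ (fun n => (s n : ℂ)) N, ?_, ?_⟩
  · have := h2.const_mul (1 / c : ℂ)
    rwa [mul_zero] at this
  · have hu := hC Set.univ 1 one_pos (fun N => by
      rw [Set.inter_univ, one_mul, ← Finset.coe_range, Set.ncard_coe_finset, card_range])
    filter_upwards [hu] with N hN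
    rw [mul_one] at hN
    rw [← Pool.Agent.Q132.TS.Av_smul]
    unfold Av
    rw [← sum_sub_distrib]
    have hpt : ∀ n, ‖ind b n - 1 / c * (s n : ℂ)‖ ≤ ε := by
      intro n
      have e : ind b n - 1 / c * (s n : ℂ) = ((-(s n - (if b n then c else 0)) / c : ℝ) : ℂ) := by
        unfold ind
        have hc' : (c : ℂ) ≠ 0 := by exact_mod_cast hc.ne'
        split_ifs
        · push_cast; field_simp; ring
        · push_cast; field_simp; ring
      rw [e, Complex.norm_real, Real.norm_eq_abs, abs_div, abs_neg, abs_of_pos hc, div_le_iff₀ hc]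
      refine (h1 n).trans ?_
      have := min_le_right (1 / 3) (c * ε)
      have h3 : 0 < c * ε := by positivity
      nlinarith
    calc ‖∑ n ∈ Icc 1 N, (κ N n * ind b n - κ N n * (1 / c * (s n : ℂ)))‖
        ≤ ∑ n ∈ Icc 1 N, ‖κ N n * ind b n - κ N n * (1 / c * (s n : ℂ))‖ := norm_sum_le _ _
      _ ≤ ∑ n ∈ Icc 1 N, Set.univ.indicator (fun n => ‖κ N n‖) n * ε := by
          apply sum_le_sum
          intro n _
          rw [Set.indicator_univ, ← mul_sub, norm_mul]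
          exact mul_le_mul_of_nonneg_left (hpt n) (norm_nonneg _)
      _ = (∑ n ∈ Icc 1 N, Set.univ.indicator (fun n => ‖κ N n‖) n) * ε := by rw [sum_mul]
      _ ≤ C * ε := mul_le_mul_of_nonneg_right hN hε.le

lemma bt_orbit (b : ℕ → Bool) (n : ℕ) : sg^[n] (bt b) 0 = b n := by
  rw [sg_iter, zero_add]
  unfold bt
  rw [if_pos (Int.natCast_nonneg n), Int.toNat_natCast]

lemma orbit_mem (b : ℕ → Bool) (n : ℕ) : sg^[n] (bt b) ∈ Om b := ((Om_maps b).iterate n) (bt_mem b)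

omit [Fintype ι] in
lemma orbit_eq {θ : ℝ} {x y : ι} {b : ℕ → Bool} {F : (ι → ℝ) → (ι → ℝ)}
    (hF : ∀ w ∈ Om b, F (pt x y (kap θ w) 0) = pt x y (kap θ (sg w)) 0) (n : ℕ) :
    F^[n] (pt x y (kap θ (bt b)) 0) = pt x y (kap θ (sg^[n] (bt b))) 0 := by
  induction n with
  | zero => rfl
  | succ n ih =>
    rw [Function.iterate_succ_apply', ih, hF _ (orbit_mem b n), Function.iterate_succ_apply']

lemma ent_zero {X : Type*} [MetricSpace X] {T : X → X} {Z : Set X} (h : EZ T Z) (hZ : Z.Nonempty) :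
    coverEntropy T Z = 0 := le_antisymm h.entropy (coverEntropy_nonneg T hZ)

/-- homeomorphisms of the cube suffice -/
theorem of_cube_homeos {κ : ℕ → ℕ → ℂ} (hκ : Good κ) {x y t : ι} (hxy : x ≠ y) (hxt : t ≠ x) (hyt : t ≠ y)
    (H : ∀ F : (ι → ℝ) → (ι → ℝ), Hm F → coverEntropy F (Metric.closedBall 0 1) = 0 → ∀ v, ‖v‖ ≤ 1 →
      Tendsto (Av κ (fun n => ((F^[n] v x : ℝ) : ℂ))) atTop (𝓝 0)) (b : ℕ → Bool) (hb : ZE b) :
    Tendsto (Av κ (ind b)) atTop (𝓝 0) := by
  apply approx_ind hκ (c := 1 / 8) (by norm_num)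
  intro θ h0 h1
  obtain ⟨F, hF, hE, hpt⟩ := exists_homeo h0 h1 hxy hxt hyt hb
  refine ⟨fun n => kap θ (sg^[n] (bt b)), fun n => ?_, ?_⟩
  · have := kap_first h0 h1 (sg^[n] (bt b))
    rw [bt_orbit] at this
    exact this
  · have h2 := H F hF (ent_zero hE ⟨0, by simp⟩) (pt x y (kap θ (bt b)) 0)
      ((pt_norm (kap_abs h0 h1 _) (by rw [abs_zero]; norm_num)).trans (by norm_num))
    refine h2.congr (fun N => ?_)
    congr 1
    funext n
    rw [orbit_eq hpt, pt_x hxy]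

/-- continuous maps of the square suffice -/
theorem of_cube_maps {κ : ℕ → ℕ → ℂ} (hκ : Good κ) {x t : ι} (hxt : x ≠ t)
    (H : ∀ F : (ι → ℝ) → (ι → ℝ), (∃ L : ℝ, 0 ≤ L ∧ ∀ v v', ‖F v - F v'‖ ≤ L * ‖v - v'‖) →
      (∀ v, 1 ≤ ‖v‖ → F v = v) → (∀ v, ‖v‖ ≤ 1 → ‖F v‖ ≤ 1) →
      coverEntropy F (Metric.closedBall 0 1) = 0 → ∀ v, ‖v‖ ≤ 1 →
      Tendsto (Av κ (fun n => ((F^[n] v x : ℝ) : ℂ))) atTop (𝓝 0)) (b : ℕ → Bool) (hb : ZE b) :
    Tendsto (Av κ (ind b)) atTop (𝓝 0) := by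
  apply approx_ind hκ (c := 1 / 8) (by norm_num)
  intro θ h0 h1
  obtain ⟨F, hF, hoff, hball, hE, hpt⟩ := exists_map h0 h1 hxt hb
  refine ⟨fun n => kap θ (sg^[n] (bt b)), fun n => ?_, ?_⟩
  · have := kap_first h0 h1 (sg^[n] (bt b))
    rw [bt_orbit] at this
    exact this
  · have h2 := H F hF hoff hball (ent_zero hE ⟨0, by simp⟩) (pt x t (kap θ (bt b)) 0)
      ((pt_norm (kap_abs h0 h1 _) (by rw [abs_zero]; norm_num)).trans (by norm_num))
    refine h2.congr (fun N => ?_)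
    congr 1
    funext n
    rw [orbit_eq hpt, pt_x hxt]

section space

variable {M : Type*} [MetricSpace M] [CompactSpace M] {j : (ι → ℝ) → M} (hj : IsOpenEmbedding j)
include hj

/-- the observable -/
lemma exists_obs (x : ι) : ∃ f : C(M, ℂ), ∀ v : ι → ℝ, ‖v‖ ≤ 1 / 2 → f (j v) = ((v x : ℝ) : ℂ) := by
  have hc : Continuous (fun v : ι → ℝ => ((v x * qq ‖v‖ : ℝ) : ℂ)) := by
    apply Complex.continuous_ofReal.comp
    apply (continuous_apply x).mul
    unfold qq
    fun_prop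
  refine ⟨⟨_, extend_cont hj hc (ψ := fun _ => 0) continuous_const ?_⟩, fun v hv => ?_⟩
  · intro v hv
    show ((v x * qq ‖v‖ : ℝ) : ℂ) = 0
    rw [qq_zero hv]; simp
  · rw [ContinuousMap.coe_mk, hj.injective.extend_apply, qq_one hv, mul_one]

theorem of_space_homeos {κ : ℕ → ℕ → ℂ} (hκ : Good κ) {x y t : ι} (hxy : x ≠ y) (hxt : t ≠ x) (hyt : t ≠ y)
    (H : ∀ h : M ≃ₜ M, (∀ m, m ∉ j '' Metric.ball 0 1 → h m = m) → coverEntropy h Set.univ = 0 →
      ∀ (f : C(M, ℂ)) (m : M), Tendsto (Av κ (fun n => f (h^[n] m))) atTop (𝓝 0)) (b : ℕ → Bool) (hb : ZE b) :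
    Tendsto (Av κ (ind b)) atTop (𝓝 0) := by
  apply approx_ind hκ (c := 1 / 8) (by norm_num)
  intro θ h0 h1
  obtain ⟨F, hF, hE, hpt⟩ := exists_homeo h0 h1 hxy hxt hyt hb
  have hball : ∀ v, ‖v‖ ≤ 1 → ‖F v‖ ≤ 1 := by
    intro v hv
    rcases lt_or_eq_of_le hv with h | h
    · exact (hF.ball h).le
    · rw [hF.off v h.ge]; exact hv
  refine ⟨fun n => kap θ (sg^[n] (bt b)), fun n => ?_, ?_⟩
  · have := kap_first h0 h1 (sg^[n] (bt b))
    rw [bt_orbit] at this
    exact this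
  · have hcont := FM_cont hj hF.cont hF.off
    have hbij := FM_bij hj ⟨hF.inj, hF.surj⟩
    let h : M ≃ₜ M := Continuous.homeoOfEquivCompactToT2 (f := Equiv.ofBijective _ hbij) hcont
    have hh : (h : M → M) = FM j F := rfl
    obtain ⟨f, hf⟩ := exists_obs hj x
    have h2 := H h (fun m hm => FM_off hj hF.off m hm)
      (by rw [hh]; exact ent_zero (FM_EZ hj hF.off hball hE) ⟨j 0, trivial⟩) f (j (pt x y (kap θ (bt b)) 0))
    refine h2.congr (fun N => ?_)
    congr 1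
    funext n
    have hit : ∀ n : ℕ, h^[n] (j (pt x y (kap θ (bt b)) 0)) = j (pt x y (kap θ (sg^[n] (bt b))) 0) := by
      intro n
      induction n with
      | zero => rfl
      | succ n ih =>
        rw [Function.iterate_succ_apply', ih, hh, FM_apply hj, hpt _ (orbit_mem b n),
          Function.iterate_succ_apply']
    rw [hit, hf _ ((pt_norm (kap_abs h0 h1 _) (by rw [abs_zero]; norm_num)).trans (by norm_num)), pt_x hxy]

theorem of_space_maps {κ : ℕ → ℕ → ℂ} (hκ : Good κ) {x t : ι} (hxt : x ≠ t)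
    (H : ∀ T : M → M, Continuous T → (∀ m, m ∉ j '' Metric.ball 0 1 → T m = m) → coverEntropy T Set.univ = 0 →
      ∀ (f : C(M, ℂ)) (m : M), Tendsto (Av κ (fun n => f (T^[n] m))) atTop (𝓝 0)) (b : ℕ → Bool) (hb : ZE b) :
    Tendsto (Av κ (ind b)) atTop (𝓝 0) := by
  apply approx_ind hκ (c := 1 / 8) (by norm_num)
  intro θ h0 h1
  obtain ⟨F, ⟨L, hL, hF⟩, hoff, hball, hE, hpt⟩ := exists_map h0 h1 hxt hb
  have hFc : Continuous F := by
    apply (LipschitzWith.of_dist_le_mul (K := ⟨L, hL⟩) (fun v v' => ?_)).continuous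
    rw [dist_eq_norm, dist_eq_norm]
    exact hF v v'
  refine ⟨fun n => kap θ (sg^[n] (bt b)), fun n => ?_, ?_⟩
  · have := kap_first h0 h1 (sg^[n] (bt b))
    rw [bt_orbit] at this
    exact this
  · obtain ⟨f, hf⟩ := exists_obs hj x
    have h2 := H (FM j F) (FM_cont hj hFc hoff) (fun m hm => FM_off hj hoff m hm)
      (ent_zero (FM_EZ hj hoff hball hE) ⟨j 0, trivial⟩) f (j (pt x t (kap θ (bt b)) 0))
    refine h2.congr (fun N => ?_)
    congr 1
    funext n
    have hit : ∀ n : ℕ, (FM j F)^[n] (j (pt x t (kap θ (bt b)) 0)) = j (pt x t (kap θ (sg^[n] (bt b))) 0) := by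
      intro n
      induction n with
      | zero => rfl
      | succ n ih =>
        rw [Function.iterate_succ_apply', ih, FM_apply hj, hpt _ (orbit_mem b n),
          Function.iterate_succ_apply']
    rw [hit, hf _ ((pt_norm (kap_abs h0 h1 _) (by rw [abs_zero]; norm_num)).trans (by norm_num)), pt_x hxt]

end space

/-! ### from all systems to the cube -/

theorem sar_of_ind {κ : ℕ → ℕ → ℂ} (hκ : Good κ)
    (H : ∀ b : ℕ → Bool, ZE b → Tendsto (Av κ (ind b)) atTop (𝓝 0)) : Sar κ False := by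
  intro X _ _ T _ hE _ f x
  exact Pool.Agent.Q132.TS.of_bool hκ H _ (Pool.Agent.Q132.TS.az_of_entropy hE f.continuous x)

theorem cube_of_sar {d : ℕ} {κ : ℕ → ℕ → ℂ} (H : Sar κ False) {F : (Fin d → ℝ) → (Fin d → ℝ)} (hF : Continuous F)
    (hball : ∀ v, ‖v‖ ≤ 1 → ‖F v‖ ≤ 1) (hE : coverEntropy F (Metric.closedBall 0 1) = 0) (x : Fin d)
    (v : Fin d → ℝ) (hv : ‖v‖ ≤ 1) : Tendsto (Av κ (fun n => ((F^[n] v x : ℝ) : ℂ))) atTop (𝓝 0) := by
  have hmaps : Set.MapsTo F (Metric.closedBall (0 : Fin d → ℝ) 1) (Metric.closedBall 0 1) :=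
    fun v hv => mem_closedBall_zero_iff.2 (hball v (mem_closedBall_zero_iff.1 hv))
  have : CompactSpace (Metric.closedBall (0 : Fin d → ℝ) 1) := isCompact_iff_compactSpace.1 (isCompact_closedBall 0 1)
  have hE2 : coverEntropy (hmaps.restrict F _ _) Set.univ = 0 := by rw [coverEntropy_restrict]; exact hE
  have hf : Continuous (fun z : Metric.closedBall (0 : Fin d → ℝ) 1 => ((z.1 x : ℝ) : ℂ)) :=
    Complex.continuous_ofReal.comp ((continuous_apply x).comp continuous_subtype_val)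
  have h1 := H (Metric.closedBall (0 : Fin d → ℝ) 1) (hmaps.restrict F _ _) (hF.restrict _) hE2
    (fun h => h.elim) ⟨_, hf⟩ ⟨v, mem_closedBall_zero_iff.2 hv⟩
  refine h1.congr (fun N => ?_)
  congr 1
  funext n
  have hit : ∀ n : ℕ, ((hmaps.restrict F _ _)^[n] ⟨v, mem_closedBall_zero_iff.2 hv⟩).1 = F^[n] v := by
    intro n
    induction n with
    | zero => rfl
    | succ n ih =>
      rw [Function.iterate_succ_apply', Function.iterate_succ_apply', ← ih]
      rfl
  show ((((hmaps.restrict F _ _)^[n] ⟨v, mem_closedBall_zero_iff.2 hv⟩).1 x : ℝ) : ℂ) = _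
  rw [hit]

/-- the homeomorphism given by a map of the class `Hm` -/
noncomputable def Hm.homeo {F : (ι → ℝ) → (ι → ℝ)} (h : Hm F) : (ι → ℝ) ≃ₜ (ι → ℝ) where
  toEquiv := Equiv.ofBijective F ⟨h.inj, h.surj⟩
  continuous_toFun := h.cont
  continuous_invFun := by
    obtain ⟨L, hL, h1⟩ := h.anti
    apply (LipschitzWith.of_dist_le_mul (K := ⟨L, hL⟩) (fun v v' => ?_)).continuous
    rw [dist_eq_norm, dist_eq_norm]
    have := h1 ((Equiv.ofBijective F ⟨h.inj, h.surj⟩).symm v) ((Equiv.ofBijective F ⟨h.inj, h.surj⟩).symm v')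
    have e : ∀ v, F ((Equiv.ofBijective F ⟨h.inj, h.surj⟩).symm v) = v :=
      fun v => (Equiv.ofBijective F ⟨h.inj, h.surj⟩).apply_symm_apply v
    rw [e, e] at this
    exact this

omit [DecidableEq ι] in
lemma Hm.homeo_lip {F : (ι → ℝ) → (ι → ℝ)} (h : Hm F) :
    ∃ L : NNReal, LipschitzWith L h.homeo ∧ LipschitzWith L h.homeo.symm := by
  obtain ⟨A, hA, h1⟩ := h.lip
  obtain ⟨B, hB, h2⟩ := h.anti
  refine ⟨⟨max A B, le_max_of_le_left hA⟩, ?_, ?_⟩
  · apply LipschitzWith.of_dist_le_mul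
    intro v v'
    rw [dist_eq_norm, dist_eq_norm]
    exact (h1 v v').trans (mul_le_mul_of_nonneg_right (le_max_left _ _) (norm_nonneg _))
  · apply LipschitzWith.of_dist_le_mul
    intro v v'
    rw [dist_eq_norm, dist_eq_norm]
    have := h2 (h.homeo.symm v) (h.homeo.symm v')
    have e : ∀ v, F (h.homeo.symm v) = v := fun v => h.homeo.apply_symm_apply v
    rw [e, e] at this
    exact this.trans (mul_le_mul_of_nonneg_right (le_max_right _ _) (norm_nonneg _))

omit [DecidableEq ι] in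
lemma Hm.of_homeo {h : (ι → ℝ) ≃ₜ (ι → ℝ)} {L : NNReal} (h1 : LipschitzWith L h) (h2 : LipschitzWith L h.symm)
    (hoff : ∀ v, 1 ≤ ‖v‖ → h v = v) : Hm h := by
  refine ⟨h.surjective, ⟨L, L.2, fun v v' => ?_⟩, ⟨L, L.2, fun v v' => ?_⟩, hoff⟩
  · have := h1.dist_le_mul v v'
    rwa [dist_eq_norm, dist_eq_norm] at this
  · have := h2.dist_le_mul (h v) (h v')
    rw [h.symm_apply_apply, h.symm_apply_apply, dist_eq_norm, dist_eq_norm] at this
    exact this

end Pool.Agent.Q132.CB
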